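import Mathlib
import Pool.Agent.H58B.Low

set_option autoImplicit false

/-!
# A lower bound for a sum of heights from local conditions
-/

namespace Pool.Agent.W70.LD

open NumberField Height Module
open Pool.Agent.Helper259.AbsHt
open Pool.Agent.H58P (Qb ht qb_isIntegral)

/-- a finite place of a number field extends to a valuation subring of `Qb` -/
lemma exists_place (L : IntermediateField ℚ Qb) [NumberField L] (v : FinitePlace L) :
    ∃ V : ValuationSubring Qb, (∀ z : L, v z < 1 → V.valuation (z : Qb) < 1) ∧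
      ∀ z : L, v z ≤ 1 → V.valuation (z : Qb) ≤ 1 := by
  let A : ValuationSubring L :=
    { carrier := {z | v z ≤ 1}
      mul_mem' := fun {a b} ha hb => by
        show v (a * b) ≤ 1
        rw [map_mul]
        exact mul_le_one₀ ha (apply_nonneg v b) hb
      one_mem' := by
        show v 1 ≤ 1
        rw [map_one]
      add_mem' := fun {a b} ha hb => by
        show v (a + b) ≤ 1
        exact (FinitePlace.add_le v a b).trans (max_le ha hb)
      zero_mem' := by
        show v 0 ≤ 1
        rw [map_zero]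
        exact zero_le_one
      neg_mem' := fun {a} ha => by
        show v (-a) ≤ 1
        have h1 : v (-a) = v (-1) * v a := by rw [← map_mul, neg_one_mul]
        have h2 : v (-1) * v (-1) = 1 := by rw [← map_mul, neg_one_mul, neg_neg, map_one]
        have h3 : v (-1) = 1 := by
          rcases mul_self_eq_one_iff.mp h2 with h | h
          · exact h
          · have := apply_nonneg v (-1)
            linarith
        rw [h1, h3, one_mul]
        exact ha
      mem_or_inv_mem' := fun a => by
        by_cases h : v a ≤ 1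
        · exact Or.inl h
        · right
          show v a⁻¹ ≤ 1
          rw [map_inv₀]
          exact inv_le_one_of_one_le₀ (le_of_lt (not_le.mp h)) }
  obtain ⟨V, hV, hloc⟩ := IsLocalRing.exists_factor_valuationRing
    ((algebraMap L Qb).comp A.subtype)
  refine ⟨V, fun z hz => ?_, fun z hz => ?_⟩
  swap
  · rw [ValuationSubring.valuation_le_one_iff]
    exact hV ⟨z, hz⟩
  have hzA : z ∈ A := le_of_lt hz
  have hmem : (z : Qb) ∈ V := hV ⟨z, hzA⟩
  rw [← ValuationSubring.valuation_lt_one_iff V ⟨(z : Qb), hmem⟩]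
  rw [IsLocalRing.mem_maximalIdeal, mem_nonunits_iff]
  intro hu
  have h1 : IsUnit ((((algebraMap L Qb).comp A.subtype).codRestrict V.toSubring hV) ⟨z, hzA⟩) := hu
  have h2 := hloc.map_nonunit _ h1
  obtain ⟨u, hu⟩ := h2
  have h3 : v z * v ((u⁻¹ : Aˣ) : A) = 1 := by
    have h4 : (z : L) * ((u⁻¹ : Aˣ) : A) = 1 := by
      have := u.mul_inv
      rw [hu] at this
      exact congrArg (fun a : A => (a : L)) this
    rw [← map_mul, h4, map_one]
  have h5 : v ((u⁻¹ : Aˣ) : A) ≤ 1 := ((u⁻¹ : Aˣ) : A).2
  have h6 : 0 ≤ v z := apply_nonneg v z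
  nlinarith

lemma fin_place_le (L : IntermediateField ℚ Qb) [NumberField L] (v : FinitePlace L)
    {J : Type*} [Fintype J] (D : L) (y : J → L)
    (h : ∀ V : ValuationSubring Qb,
      V.valuation (D : Qb) ≤ ∏ j, max 1 (V.valuation (y j : Qb))) :
    v D ≤ ∏ j, max (v (y j)) 1 := by
  classical
  obtain ⟨V, hV1, hV2⟩ := exists_place L v
  by_contra hcon
  push Not at hcon
  set s : Finset J := Finset.univ.filter (fun j => 1 < v (y j)) with hs
  set Y : L := ∏ j ∈ s, y j with hY
  have e1 : v Y = ∏ j, max (v (y j)) 1 := by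
    rw [hY, map_prod, hs, Finset.prod_filter]
    refine Finset.prod_congr rfl fun j _ => ?_
    split_ifs with hj
    · exact (max_eq_left hj.le).symm
    · exact (max_eq_right (not_lt.mp hj)).symm
  have hD0 : 0 < v D := by
    refine lt_of_le_of_lt ?_ hcon
    exact Finset.prod_nonneg fun j _ => le_trans zero_le_one (le_max_right _ _)
  have e2 : v (Y / D) < 1 := by
    rw [map_div₀, div_lt_one hD0, e1]
    exact hcon
  have e3 := hV1 _ e2
  have hDne : D ≠ 0 := by
    rintro rfl
    rw [map_zero] at hD0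
    exact lt_irrefl _ hD0
  have hVD : 0 < V.valuation (D : Qb) := by
    rw [zero_lt_iff, Valuation.ne_zero_iff]
    exact fun h0 => hDne (by exact_mod_cast h0)
  have e4 : V.valuation (Y : Qb) < V.valuation (D : Qb) := by
    have e5 : (((Y / D : L)) : Qb) = (Y : Qb) / (D : Qb) := by push_cast; rfl
    rw [e5, map_div₀, div_lt_one₀ hVD] at e3
    exact e3
  refine absurd (lt_of_lt_of_le e4 (h V)) (not_lt.mpr (le_of_eq ?_))
  have e6 : ((Y : L) : Qb) = ∏ j ∈ s, (y j : Qb) := by
    rw [hY]
    exact map_prod (algebraMap L Qb) _ _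
  rw [e6, map_prod, hs, Finset.prod_filter]
  refine Finset.prod_congr rfl fun j _ => ?_
  split_ifs with hj
  · rw [max_eq_right]
    have hyj : y j ≠ 0 := by
      intro h0
      rw [h0, map_zero] at hj
      exact absurd hj (by norm_num)
    have h1 : v (y j)⁻¹ < 1 := by
      rw [map_inv₀]
      exact inv_lt_one_of_one_lt₀ hj
    have h2 := hV1 _ h1
    have h3 : (((y j)⁻¹ : L) : Qb) = ((y j : L) : Qb)⁻¹ := by push_cast; rfl
    rw [h3, map_inv₀] at h2
    have h4 : 0 < V.valuation ((y j : L) : Qb) := by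
      rw [zero_lt_iff, Valuation.ne_zero_iff]
      exact fun h0 => hyj (by exact_mod_cast h0)
    exact (one_lt_inv₀ (inv_pos.mpr h4) |>.mpr h2 |>.le).trans (by rw [inv_inv])
  · rw [max_eq_left]
    exact hV2 _ (not_lt.mp hj)

/-- a lower bound for the sum of heights from local conditions -/
theorem height_prod_ge {J : Type*} [Fintype J] (D : Qb) (hD : D ≠ 0) (y : J → Qb) (R : ℝ)
    (hR : 0 < R)
    (hV : ∀ V : ValuationSubring Qb, V.valuation D ≤ ∏ j, max 1 (V.valuation (y j)))
    (hφ : ∀ φ : Qb →+* ℂ, R * ‖φ D‖ ≤ ∏ j, max ‖φ (y j)‖ 1) :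
    Real.log R ≤ ∑ j, ht (y j) := by
  classical
  obtain ⟨L, hL, hmem⟩ := exists_nf ({D} ∪ Set.range y)
    ((Set.finite_singleton D).union (Set.finite_range y))
  obtain ⟨D, rfl⟩ : ∃ D' : L, (D' : Qb) = D := ⟨⟨D, hmem _ (Or.inl rfl)⟩, rfl⟩
  obtain ⟨y, rfl⟩ := lift_vec L y fun i => hmem _ (Or.inr ⟨i, rfl⟩)
  have hD' : D ≠ 0 := fun h => hD (by rw [h]; rfl)
  have hht : ∀ j, ht (y j : Qb) = Real.log (mulHeight₁ (y j)) / finrank ℚ L := by
    intro j
    have h1 := val_eq L ![1, y j]
    have e : (fun i => ((![1, y j] i : L) : Qb)) = ![1, (y j : Qb)] := by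
      funext i
      fin_cases i
      · simp
      · simp
    rw [e, logHeight_swap, ← logHeight₁_eq_logHeight, logHeight₁_eq_log_mulHeight₁] at h1
    exact h1
  have hsum : ∑ j, ht (y j : Qb) = Real.log (∏ j, mulHeight₁ (y j)) / finrank ℚ L := by
    rw [Real.log_prod (fun j _ => (mulHeight₁_pos _).ne'), Finset.sum_div]
    exact Finset.sum_congr rfl fun j _ => hht j
  show Real.log R ≤ ∑ j, ht (y j : Qb)
  rw [hsum, le_div_iff₀ (finrank_pos' L), mul_comm, ← Real.log_pow]
  apply Real.log_le_log (by positivity)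
  -- the infinite places
  have h1 : ∏ v : InfinitePlace L, (R * v D) ^ v.mult ≤
      ∏ v : InfinitePlace L, (∏ j, max (v (y j)) 1) ^ v.mult := by
    apply Finset.prod_le_prod
    · intro v _
      positivity
    · intro v _
      apply pow_le_pow_left₀ (by positivity)
      let _ : Algebra L ℂ := v.embedding.toAlgebra
      have halg : Algebra.IsAlgebraic L Qb := ⟨fun z =>
        ((qb_isIntegral z).tower_top (A := L)).isAlgebraic⟩
      let ψ : Qb →ₐ[L] ℂ := IsAlgClosed.lift
      have h2 : ∀ z : L, ‖(ψ : Qb →+* ℂ) (z : Qb)‖ = v z := by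
        intro z
        have h3 : (ψ : Qb →+* ℂ) (z : Qb) = v.embedding z := ψ.commutes z
        rw [h3, InfinitePlace.norm_embedding_eq]
      have h3 := hφ (ψ : Qb →+* ℂ)
      simp only [h2] at h3
      exact h3
  -- the finite places
  have hfs : ∀ j, (Function.HasFiniteMulSupport fun v : FinitePlace L => max (v (y j)) 1) := by
    intro j
    by_cases h0 : y j = 0
    · have : (fun v : FinitePlace L => max (v (y j)) 1) = fun _ => 1 := by
        funext v
        rw [h0, map_zero]
        exact max_eq_right zero_le_one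
      rw [this]
      exact Function.hasFiniteMulSupport_one
    · exact (FinitePlace.hasFiniteMulSupport h0).max Function.hasFiniteMulSupport_one
  have h2 : ∏ᶠ v : FinitePlace L, v D ≤ ∏ᶠ v : FinitePlace L, ∏ j, max (v (y j)) 1 := by
    apply finprod_le_finprod
    · exact FinitePlace.hasFiniteMulSupport hD'
    · intro v
      exact apply_nonneg v D
    · exact Function.HasFiniteMulSupport.prod hfs Finset.univ
    · intro v
      exact fin_place_le L v D y hV
  have h3 : ∏ j, mulHeight₁ (y j) = (∏ v : InfinitePlace L, (∏ j, max (v (y j)) 1) ^ v.mult) *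
      ∏ᶠ v : FinitePlace L, ∏ j, max (v (y j)) 1 := by
    simp only [NumberField.mulHeight₁_eq]
    rw [Finset.prod_mul_distrib, Finset.prod_comm]
    congr 1
    · exact Finset.prod_congr rfl fun v _ => Finset.prod_pow _ _ _
    · exact prod_finprod_comm _ _ fun j _ => hfs j
  have h4 : (∏ v : InfinitePlace L, (R * v D) ^ v.mult) * ∏ᶠ v : FinitePlace L, v D =
      R ^ finrank ℚ L := by
    have h5 : ∏ v : InfinitePlace L, (R * v D) ^ v.mult =
        R ^ finrank ℚ L * ∏ v : InfinitePlace L, v D ^ v.mult := by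
      rw [← InfinitePlace.sum_mult_eq (K := L), ← Finset.prod_pow_eq_pow_sum,
        ← Finset.prod_mul_distrib]
      exact Finset.prod_congr rfl fun v _ => mul_pow _ _ _
    rw [h5, mul_assoc, NumberField.prod_abs_eq_one hD', mul_one]
  rw [h3, ← h4]
  apply mul_le_mul h1 h2
  · exact finprod_nonneg fun v => apply_nonneg v D
  · exact Finset.prod_nonneg fun v _ => pow_nonneg
      (Finset.prod_nonneg fun j _ => le_trans zero_le_one (le_max_right _ _)) _

end Pool.Agent.W70.LD
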