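import Mathlib
import Pool.Agent.W70.LD.Prod

set_option autoImplicit false

/-!
# The absolute height is bounded by the Mahler height
-/

namespace Pool.Agent.W70.LD

open NumberField Height Module Polynomial
open Pool.Agent.Helper259.AbsHt
open Pool.Agent.H58P (Qb ht qb_isIntegral)
open Pool.Agent.H58W (hM dens isInt)

lemma ht_coe (L : IntermediateField ℚ Qb) [NumberField L] (y : L) :
    ht (y : Qb) = Real.log (mulHeight₁ y) / finrank ℚ L := by
  have h1 := val_eq L ![1, y]
  have e : (fun i => ((![1, y] i : L) : Qb)) = ![1, (y : Qb)] := by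
    funext i
    fin_cases i
    · simp
    · simp
  rw [e, logHeight_swap, ← logHeight₁_eq_logHeight, logHeight₁_eq_log_mulHeight₁] at h1
  exact h1

lemma fin_int_le (L : IntermediateField ℚ Qb) [NumberField L] (v : FinitePlace L) (z : ℤ) :
    v (z : L) ≤ 1 := by
  have hna : IsNonarchimedean v.1 := fun a b => FinitePlace.add_le v a b
  exact hna.apply_intCast_le_one

lemma fin_gauss (L : IntermediateField ℚ Qb) [NumberField L] (v : FinitePlace L)
    {J : Type*} [Fintype J] (y : J → L) (c : ℕ) (hc : c ≠ 0)
    (h : ∀ i, ∃ z : ℤ, (c : L) * (∏ j, (X - C (y j))).coeff i = z) :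
    ∏ j, max (v (y j)) 1 ≤ (v (c : L))⁻¹ := by
  classical
  have hna : IsNonarchimedean v.1 := fun a b => FinitePlace.add_le v a b
  have hg : ∀ s : Finset J, ∏ j ∈ s, max (v (y j)) 1 ≤
      (∏ j ∈ s, (X - C (y j))).gaussNorm v.1 1 := by
    intro s
    induction s using Finset.induction_on with
    | empty =>
      rw [Finset.prod_empty, Finset.prod_empty]
      have := (1 : L[X]).le_gaussNorm v.1 (c := 1) (by norm_num) 0
      simpa using this
    | insert a s ha ih =>
      rw [Finset.prod_insert ha, Finset.prod_insert ha, gaussNorm_mul hna (by norm_num)]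
      apply mul_le_mul _ ih
      · exact Finset.prod_nonneg fun j _ => le_trans zero_le_one (le_max_right _ _)
      · exact gaussNorm_nonneg _ _ (by norm_num)
      · apply max_le
        · have := (X - C (y a)).le_gaussNorm v.1 (c := 1) (by norm_num) 0
          show v.1 (y a) ≤ _
          simpa using this
        · have := (X - C (y a)).le_gaussNorm v.1 (c := 1) (by norm_num) 1
          simpa using this
  refine (hg Finset.univ).trans ?_
  obtain ⟨i, hi⟩ := (∏ j, (X - C (y j))).exists_eq_gaussNorm v.1 1
  rw [hi, one_pow, mul_one]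
  obtain ⟨z, hz⟩ := h i
  have hc0 : (c : L) ≠ 0 := by exact_mod_cast hc
  have hvc : 0 < v (c : L) := by
    rw [FinitePlace.pos_iff]
    exact hc0
  rw [← one_div, le_div_iff₀ hvc]
  have h2 : v ((c : L) * (∏ j, (X - C (y j))).coeff i) ≤ 1 := by
    rw [hz]
    exact fin_int_le L v z
  rw [map_mul, mul_comm] at h2
  exact h2

/-- the absolute height is bounded by the height defined through the Mahler measure -/
theorem ht_le_hM (γ : Qb) : ht γ ≤ hM γ := by
  classical
  set f : ℚ[X] := minpoly ℚ γ with hf
  have hmon : f.Monic := minpoly.monic (isInt γ)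
  set F : Qb[X] := f.map (algebraMap ℚ Qb) with hF
  have hsplit : F.Splits := IsAlgClosed.splits _
  have hsep : F.Separable := (minpoly.irreducible (isInt γ)).separable.map
  have hnodup : F.roots.Nodup := nodup_roots hsep
  set S : Finset Qb := F.roots.toFinset with hS
  have hFprod : F = ∏ s ∈ S, (X - C s) := by
    have h1 := hsplit.eq_prod_roots
    rw [(hmon.map _).leadingCoeff, C_1, one_mul] at h1
    refine h1.trans ?_
    show _ = Multiset.prod (Multiset.map (fun s => X - C s) (Multiset.toFinset F.roots).val)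
    rw [Multiset.toFinset_val, hnodup.dedup]
  obtain ⟨L, hL, hmem⟩ := exists_nf (S : Set Qb) (Finset.finite_toSet S)
  set y : S → L := fun s => ⟨s.1, hmem _ s.2⟩ with hy
  have hprod : ∏ j, (X - C (y j)) = f.map (algebraMap ℚ L) := by
    apply Polynomial.map_injective (algebraMap L Qb) (algebraMap L Qb).injective
    have e1 : ∏ s ∈ S, (X - C s) = ∏ j : S, (X - C (j : Qb)) :=
      (Finset.prod_coe_sort S fun s => X - C s).symm
    rw [Polynomial.map_map, ← IsScalarTower.algebraMap_eq, ← hF, hFprod, Polynomial.map_prod, e1]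
    refine Finset.prod_congr rfl fun j _ => ?_
    rw [Polynomial.map_sub, map_X, map_C]
    rfl
  set c : ℕ := sInf (dens γ) with hc
  have hcm := H58W.sInf_mem γ
  have hc0 : 0 < c := hcm.1
  -- the conjugates have the same height
  have hconj : ∀ s ∈ S, ht s = ht γ := by
    intro s hs
    have h1 : aeval s f = 0 := by
      have : s ∈ F.roots := Multiset.mem_toFinset.mp hs
      rw [mem_roots', IsRoot.def, hF, eval_map_algebraMap] at this
      exact this.2
    have h2 : minpoly ℚ s = f :=
      (minpoly.eq_of_irreducible_of_monic (minpoly.irreducible (isInt γ)) h1 hmon).symm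
    have hcl : IsAlgClosure ℚ Qb := ⟨inferInstance, ⟨fun z => (isInt z).isAlgebraic⟩⟩
    have hn : Normal ℚ Qb := IsAlgClosure.normal ℚ Qb
    obtain ⟨σ, hσ⟩ := (Normal.minpoly_eq_iff_mem_orbit Qb).mp h2
    have h3 : σ γ = s := hσ
    rw [← h3]
    exact H58B.ht_conj σ γ
  have hcard : S.card = f.natDegree := by
    have h1 : F.natDegree = S.card := by
      rw [hFprod, natDegree_prod_of_monic _ _ (fun s _ => monic_X_sub_C s)]
      simp
    rw [← h1, hF, hmon.natDegree_map]
  have hsum : (f.natDegree : ℝ) * ht γ = Real.log (∏ j, mulHeight₁ (y j)) / finrank ℚ L := by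
    rw [Real.log_prod (fun j _ => (mulHeight₁_pos _).ne'), Finset.sum_div, ← hcard,
      ← nsmul_eq_mul, ← Finset.sum_const, ← Finset.sum_coe_sort]
    refine Finset.sum_congr rfl fun j _ => ?_
    rw [← ht_coe L (y j), ← hconj j.1 j.2]
  have hfs : ∀ j, (Function.HasFiniteMulSupport fun v : FinitePlace L => max (v (y j)) 1) := by
    intro j
    by_cases h0 : y j = 0
    · have : (fun v : FinitePlace L => max (v (y j)) 1) = fun _ => 1 := by
        funext v
        rw [h0, map_zero]
        exact max_eq_right zero_le_one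
      rw [this]
      exact Function.hasFiniteMulSupport_one
    · exact (FinitePlace.hasFiniteMulSupport h0).max Function.hasFiniteMulSupport_one
  set M : ℝ := (Polynomial.map (algebraMap ℚ ℂ) (minpoly ℚ γ)).mahlerMeasure with hM'
  have hM1 : 1 ≤ M := H58W.one_le_mm γ
  have h3 : ∏ j, mulHeight₁ (y j) = (∏ v : InfinitePlace L, (∏ j, max (v (y j)) 1) ^ v.mult) *
      ∏ᶠ v : FinitePlace L, ∏ j, max (v (y j)) 1 := by
    simp only [NumberField.mulHeight₁_eq]
    rw [Finset.prod_mul_distrib, Finset.prod_comm]
    congr 1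
    · exact Finset.prod_congr rfl fun v _ => Finset.prod_pow _ _ _
    · exact prod_finprod_comm _ _ fun j _ => hfs j
  have h4 : ∀ v : InfinitePlace L, ∏ j, max (v (y j)) 1 = M := by
    intro v
    have e1 : Polynomial.map (algebraMap ℚ ℂ) f = ∏ j, (X - C (v.embedding (y j))) := by
      have e2 : Polynomial.map (algebraMap ℚ ℂ) f =
          (f.map (algebraMap ℚ L)).map v.embedding := by
        rw [Polynomial.map_map]
        congr 1
        exact RingHom.ext_rat _ _
      rw [e2, ← hprod, Polynomial.map_prod]
      refine Finset.prod_congr rfl fun j _ => ?_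
      rw [Polynomial.map_sub, map_X, map_C]
    rw [hM', ← hf, e1]
    have e3 := prod_mahlerMeasure_eq_mahlerMeasure_prod
      (Finset.univ.val.map fun j => (X - C (v.embedding (y j))))
    show Multiset.prod _ = mahlerMeasure (Multiset.prod _)
    rw [e3, Multiset.map_map]
    congr 1
    refine Multiset.map_congr rfl fun j _ => ?_
    rw [Function.comp_apply, mahlerMeasure_X_sub_C, InfinitePlace.norm_embedding_eq, max_comm]
  have h5 : ∏ v : InfinitePlace L, (∏ j, max (v (y j)) 1) ^ v.mult = M ^ finrank ℚ L := by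
    rw [← InfinitePlace.sum_mult_eq (K := L), ← Finset.prod_pow_eq_pow_sum]
    exact Finset.prod_congr rfl fun v _ => by rw [h4 v]
  have hcL : (c : L) ≠ 0 := by exact_mod_cast hc0.ne'
  have h6 : (∏ᶠ v : FinitePlace L, v (c : L))⁻¹ = (c : ℝ) ^ finrank ℚ L := by
    have h7 := NumberField.prod_abs_eq_one hcL
    have h8 : ∏ v : InfinitePlace L, v (c : L) ^ v.mult = (c : ℝ) ^ finrank ℚ L := by
      rw [← InfinitePlace.sum_mult_eq (K := L), ← Finset.prod_pow_eq_pow_sum]
      refine Finset.prod_congr rfl fun v _ => ?_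
      rw [← InfinitePlace.norm_embedding_eq, map_natCast, Complex.norm_natCast]
    rw [h8] at h7
    exact inv_eq_of_mul_eq_one_left h7
  have h9 : ∏ᶠ v : FinitePlace L, ∏ j, max (v (y j)) 1 ≤ (c : ℝ) ^ finrank ℚ L := by
    rw [← h6, ← finprod_inv_distrib]
    apply finprod_le_finprod
    · exact Function.HasFiniteMulSupport.prod hfs Finset.univ
    · exact fun v => Finset.prod_nonneg fun j _ => le_trans zero_le_one (le_max_right _ _)
    · exact (FinitePlace.hasFiniteMulSupport hcL).inv
    · intro v
      apply fin_gauss L v y c hc0.ne'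
      intro i
      refine ⟨H58W.cvec γ i, ?_⟩
      rw [hprod, coeff_map]
      have h10 := congrArg (algebraMap ℚ L) (H58W.cvec_eq γ i)
      simp only [map_intCast, map_mul, map_natCast] at h10
      exact h10.symm
  have hfin : (f.natDegree : ℝ) * ht γ ≤ Real.log (c * M) := by
    rw [hsum, div_le_iff₀ (finrank_pos' L), mul_comm (Real.log _), ← Real.log_pow, mul_pow]
    apply Real.log_le_log
    · exact Finset.prod_pos fun j _ => mulHeight₁_pos _
    · rw [h3, h5, mul_comm]
      exact mul_le_mul_of_nonneg_right h9 (by positivity)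
  have hdeg0 : (0 : ℝ) < f.natDegree := by exact_mod_cast minpoly.natDegree_pos (isInt γ)
  show ht γ ≤ Real.log (c * M) / f.natDegree
  rw [le_div_iff₀ hdeg0, mul_comm]
  exact hfin

end Pool.Agent.W70.LD
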