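import Mathlib

set_option autoImplicit false

/-!
# Infinite ramification
-/

namespace Pool.Agent.W70.LD

open Module WithZero

lemma no_halving (γ : ℕ → ℤᵐ⁰) (h0 : γ 0 ≠ 0) (h1 : γ 0 < 1)
    (h : ∀ j, γ (j + 1) ^ 2 = γ j) : False := by
  have hne : ∀ j, γ j ≠ 0 ∧ γ j < 1 := by
    intro j
    induction j with
    | zero => exact ⟨h0, h1⟩
    | succ j ih =>
      refine ⟨?_, ?_⟩
      · intro h2
        apply ih.1
        rw [← h j, h2]
        rfl
      · by_contra h2
        rw [not_lt] at h2
        have h3 : 1 ≤ γ (j + 1) ^ 2 := one_le_pow₀ h2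
        rw [h j] at h3
        exact absurd ih.2 (not_lt.mpr h3)
  have hlog : ∀ j, WithZero.log (γ j) < 0 := by
    intro j
    rw [← WithZero.log_one, WithZero.log_lt_log (hne j).1 one_ne_zero]
    exact (hne j).2
  have hrec : ∀ j, WithZero.log (γ j) = 2 * WithZero.log (γ (j + 1)) := by
    intro j
    rw [← h j, WithZero.log_pow]
    simp
  have key : ∀ j, WithZero.log (γ 0) = 2 ^ j * WithZero.log (γ j) := by
    intro j
    induction j with
    | zero => simp
    | succ j ih => rw [ih, hrec j, pow_succ]; ring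
  set k : ℕ := (WithZero.log (γ 0)).natAbs with hk
  have h2 := key k
  have h3 := hlog k
  have h4 : (k : ℤ) < 2 ^ k := by exact_mod_cast Nat.lt_two_pow_self
  have h5 : WithZero.log (γ 0) = -(k : ℤ) := by
    have := hlog 0
    omega
  nlinarith

lemma valint_le {k : Type*} [Field k] {Γ : Type*} [LinearOrderedCommGroupWithZero Γ]
    (w : Valuation k Γ) (z : k) (hz : IsIntegral ℤ z) : w z ≤ 1 := by
  have h1 : IsIntegral w.integer z := by
    obtain ⟨p, hp, hp0⟩ := hz
    refine ⟨p.map (algebraMap ℤ w.integer), hp.map _, ?_⟩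
    rw [Polynomial.eval₂_map]
    have e : (algebraMap w.integer k).comp (algebraMap ℤ w.integer) = algebraMap ℤ k :=
      RingHom.ext_int _ _
    rw [e]
    exact hp0
  have h2 : Valuation.Integers w w.integer := Valuation.integer.integers w
  exact h2.mem_of_integral h1

theorem local_infinite {k : Type*} [Field k] (w : Valuation k ℤᵐ⁰) (p : ℕ) (hp : p.Prime)
    (hp0 : (p : k) ≠ 0) (hw : w (p : k) < 1) {A : Type*} [Field A] [Algebra k A]
    [FiniteDimensional k A] (x u u' : ℕ → A) (c : ℕ → ℤ) (a : ℕ → ℕ)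
    (ha : ∀ i, a i = if i.Prime then i else 1)
    (hx : ∀ i, IsIntegral ℤ (x i)) (hx0 : ∀ i, x i ≠ 0)
    (hxx : ∀ i, x (i + 1) ^ 2 = a i * x i * u i)
    (hu : ∀ i, IsIntegral ℤ (u i)) (hu' : ∀ i, IsIntegral ℤ (u' i))
    (huu : ∀ i, u i * u' i = c i) (hc : ∀ i, (i.factorial : ℤ) ∣ c i - 1) : False := by
  set D : ℕ := finrank k A with hD
  have hDpos : 0 < D := finrank_pos
  have hwp0 : w (p : k) ≠ 0 := (Valuation.ne_zero_iff _).mpr hp0
  have hnorm : ∀ z : A, IsIntegral ℤ z → w (Algebra.norm k z) ≤ 1 := fun z hz =>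
    valint_le w _ (Algebra.isIntegral_norm k hz)
  have hint : ∀ n : ℤ, w (n : k) ≤ 1 := fun n => valint_le w _ (isIntegral_intCast n)
  have hnat : ∀ n : ℕ, w (n : k) ≤ 1 := fun n => valint_le w _ (isIntegral_natCast n)
  have hnat1 : ∀ n : ℕ, ¬ p ∣ n → w (n : k) = 1 := by
    intro n hn
    have hco : IsCoprime (p : ℤ) (n : ℤ) := by
      rw [Nat.isCoprime_iff_coprime]
      exact (Nat.Prime.coprime_iff_not_dvd hp).mpr hn
    obtain ⟨s, t, hst⟩ := hco
    rcases lt_or_eq_of_le (hnat n) with h | h
    · exfalso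
      have h1 : (s : k) * (p : k) + (t : k) * (n : k) = 1 := by exact_mod_cast congrArg (Int.cast : ℤ → k) hst
      have h2 : w ((s : k) * (p : k) + (t : k) * (n : k)) < 1 := by
        apply Valuation.map_add_lt
        · rw [map_mul, mul_comm]; exact mul_lt_one_of_lt_of_le hw (hint s)
        · rw [map_mul, mul_comm]; exact mul_lt_one_of_lt_of_le h (hint t)
      rw [h1, map_one] at h2
      exact lt_irrefl _ h2
    · exact h
  have hcu : ∀ i, p ≤ i → w (Algebra.norm k (u i)) = 1 := by
    intro i hi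
    have h1 : w (c i : k) = 1 := by
      obtain ⟨j, hj⟩ := hc i
      obtain ⟨l, hl⟩ := (hp.dvd_factorial).mpr hi
      have h2 : (c i : k) = 1 + (p : k) * ((l * j : ℤ) : k) := by
        have : c i = 1 + p * (l * j) := by
          rw [hl] at hj
          push_cast at hj
          linear_combination hj
        rw [this]
        push_cast
        ring
      have h3 : w ((p : k) * ((l * j : ℤ) : k)) < w 1 := by
        rw [map_mul, map_one]
        exact mul_lt_one_of_lt_of_le hw (hint _)
      rw [h2, Valuation.map_add_eq_of_lt_left _ h3, map_one]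
    have h4 : w (Algebra.norm k (u i)) * w (Algebra.norm k (u' i)) = 1 := by
      rw [← map_mul, ← map_mul, huu i]
      have h5 : ((c i : ℤ) : A) = algebraMap k A (c i : k) := by simp
      rw [h5, Algebra.norm_algebraMap, map_pow, h1, one_pow]
    have h6 := hnorm (u i) (hu i)
    have h7 := hnorm (u' i) (hu' i)
    rcases lt_or_eq_of_le h6 with h | h
    · exfalso
      have h8 := mul_lt_one_of_lt_of_le h h7
      rw [h4] at h8
      exact lt_irrefl _ h8
    · exact h
  have hN : ∀ i, w (Algebra.norm k (x (i + 1))) ^ 2 =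
      w (a i : k) ^ D * w (Algebra.norm k (x i)) * w (Algebra.norm k (u i)) := by
    intro i
    rw [← map_pow, ← map_pow, hxx i, map_mul, map_mul, map_mul, map_mul]
    congr 2
    have h5 : ((a i : ℕ) : A) = algebraMap k A (a i : k) := by simp
    rw [h5, Algebra.norm_algebraMap, map_pow]
  have hne : ∀ i, w (Algebra.norm k (x i)) ≠ 0 := by
    intro i
    rw [Valuation.ne_zero_iff, Algebra.norm_ne_zero_iff]
    exact hx0 i
  refine no_halving (fun j => w (Algebra.norm k (x (p + 1 + j)))) (hne _) ?_ ?_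
  · by_contra hcon
    rw [not_lt] at hcon
    have h1 := one_le_pow₀ hcon (n := 2)
    have h2 := hN p
    rw [hcu p le_rfl, mul_one, ha, if_pos hp] at h2
    have h3 : w (p : k) ^ D * w (Algebra.norm k (x p)) < 1 := by
      apply mul_lt_one_of_lt_of_le _ (hnorm _ (hx p))
      exact pow_lt_one₀ zero_le hw hDpos.ne'
    rw [← h2] at h3
    exact absurd h3 (not_lt.mpr h1)
  · intro j
    have h2 := hN (p + 1 + j)
    rw [hcu _ (by omega), mul_one] at h2
    have h3 : w (a (p + 1 + j) : k) = 1 := by
      rw [ha]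
      split_ifs with h
      · apply hnat1
        intro hd
        rcases (Nat.dvd_prime h).mp hd with h4 | h4
        · exact hp.ne_one h4
        · omega
      · rw [Nat.cast_one, map_one]
    rw [h3, one_pow, one_mul] at h2
    exact h2

end Pool.Agent.W70.LD
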