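import Mathlib
import Pool.Agent.H58B.Val

set_option autoImplicit false

/-!
# Valuations which are unramified over a rational prime
-/

namespace Pool.Agent.W70.LD

open Module
open Pool.Agent.H58P (Qb ht qb_isIntegral)
open Pool.Agent.H58B (quad_mem)

section

variable {Γ : Type*} [LinearOrderedCommGroupWithZero Γ] (w : Valuation Qb Γ)

lemma val_nat_le (n : ℕ) : w (n : Qb) ≤ 1 := by
  induction n with
  | zero => simp
  | succ n ih =>
    rw [Nat.cast_succ]
    exact (w.map_add _ _).trans (max_le ih (by rw [map_one]))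

lemma val_int_le (n : ℤ) : w (n : Qb) ≤ 1 := by
  rcases Int.eq_nat_or_neg n with ⟨m, h | h⟩
  · rw [h, Int.cast_natCast]; exact val_nat_le w m
  · rw [h, Int.cast_neg, Valuation.map_neg, Int.cast_natCast]; exact val_nat_le w m

lemma val_integral_le (z : Qb) (hz : IsIntegral ℤ z) : w z ≤ 1 := by
  have h1 : IsIntegral w.integer z := by
    obtain ⟨p, hp, hp0⟩ := hz
    refine ⟨p.map (algebraMap ℤ w.integer), hp.map _, ?_⟩
    rw [Polynomial.eval₂_map]
    have e : (algebraMap w.integer Qb).comp (algebraMap ℤ w.integer) = algebraMap ℤ Qb :=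
      RingHom.ext_int _ _
    rw [e]
    exact hp0
  have h2 : Valuation.Integers w w.integer := Valuation.integer.integers w
  exact h2.mem_of_integral h1

/-- a divisor of a unit among the integers is a unit -/
lemma val_eq_one_of_mul (a b c : Qb) (ha : IsIntegral ℤ a) (hb : IsIntegral ℤ b)
    (hab : a * b = c) (hc : w c = 1) : w a = 1 := by
  have h1 := val_integral_le w a ha
  have h2 := val_integral_le w b hb
  rcases lt_or_eq_of_le h1 with h | h
  · exfalso
    have h3 : w c < 1 := by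
      rw [← hab, map_mul]
      exact mul_lt_one_of_lt_of_le h h2
    rw [hc] at h3
    exact lt_irrefl _ h3
  · exact h

lemma exists_cofactor (z : Qb) (hz : IsIntegral ℤ z) (h0 : z ≠ 0) :
    ∃ N : ℕ, 0 < N ∧ ∃ y : Qb, IsIntegral ℤ y ∧ z * y = N := by
  let s : integralClosure ℤ Qb := ⟨z, hz⟩
  have hs : s ∈ nonZeroDivisors (integralClosure ℤ Qb) := by
    apply mem_nonZeroDivisors_of_ne_zero
    intro h
    exact h0 (congrArg Subtype.val h)
  have halg : IsAlgebraic ℤ s := by
    have : IsAlgebraic ℤ z := hz.isAlgebraic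
    exact (isAlgebraic_algebraMap_iff (R := ℤ) (S := integralClosure ℤ Qb) (A := Qb)
      (fun a b h => Subtype.ext h)).mp this
  obtain ⟨r, hr0, y, hy⟩ := halg.exists_nonzero_dvd hs
  have hy' : z * (y : Qb) = (r : ℤ) := by
    have := congrArg Subtype.val hy
    simpa using this.symm
  rcases Int.natAbs_eq r with h | h
  · refine ⟨r.natAbs, Int.natAbs_pos.mpr hr0, y, y.2, ?_⟩
    rw [hy', h]
    simp
  · refine ⟨r.natAbs, Int.natAbs_pos.mpr hr0, -y, y.2.neg, ?_⟩
    rw [mul_neg, hy', h]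
    simp

variable (q : ℕ)

lemma val_coprime (hqp : q.Prime) (hq : w (q : Qb) < 1) (m : ℤ) (hm : ¬ (q : ℤ) ∣ m) :
    w (m : Qb) = 1 := by
  have hq' : Prime (q : ℤ) := Nat.prime_iff_prime_int.mp hqp
  have hco : IsCoprime (q : ℤ) m := (Prime.coprime_iff_not_dvd hq').mpr hm
  obtain ⟨u, v, huv⟩ := hco
  have h1 : (m : Qb) * (v : Qb) = 1 - (q : Qb) * (u : Qb) := by
    have : ((u * q + v * m : ℤ) : Qb) = 1 := by rw [huv]; simp
    push_cast at this
    linear_combination this
  have h2 : w ((m : Qb) * (v : Qb)) = 1 := by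
    rw [h1]
    have h3 : w ((q : Qb) * (u : Qb)) < w 1 := by
      rw [map_mul, map_one]
      exact mul_lt_one_of_lt_of_le hq (val_int_le w u)
    rw [Valuation.map_sub_eq_of_lt_left _ h3, map_one]
  apply val_eq_one_of_mul w m v ((m : Qb) * (v : Qb)) _ _ rfl h2
  · exact isIntegral_intCast m
  · exact isIntegral_intCast v

/-- the values on `E` are powers of the value of the rational prime `q` -/
def Un (E : IntermediateField ℚ Qb) : Prop :=
  ∀ z ∈ E, z ≠ 0 → ∃ k : ℤ, w z = w (q : Qb) ^ k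

lemma val_int_pow (hqp : q.Prime) (hq : w (q : Qb) < 1) (m : ℤ) (hm : m ≠ 0) :
    ∃ k : ℕ, w (m : Qb) = w (q : Qb) ^ k ∧ (k = 0 ↔ ¬ (q : ℤ) ∣ m) ∧
      (k = 1 ↔ ((q : ℤ) ∣ m ∧ ¬ (q : ℤ) ^ 2 ∣ m)) := by
  have hq' : Prime (q : ℤ) := Nat.prime_iff_prime_int.mp hqp
  have hfin : FiniteMultiplicity (q : ℤ) m := by
    rw [Int.finiteMultiplicity_iff]
    exact ⟨by rw [Int.natAbs_natCast]; exact hqp.ne_one, hm⟩
  obtain ⟨c, hc, hnd⟩ := hfin.exists_eq_pow_mul_and_not_dvd
  refine ⟨multiplicity (q : ℤ) m, ?_, ?_, ?_⟩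
  · conv_lhs => rw [hc]
    push_cast
    rw [map_mul, map_pow, val_coprime w q hqp hq c hnd, mul_one]
  · rw [multiplicity_eq_zero]
  · rw [hfin.multiplicity_eq_iff, pow_one]

lemma un_bot (hqp : q.Prime) (hq : w (q : Qb) < 1) : Un w q ⊥ := by
  intro z hz hz0
  rw [IntermediateField.mem_bot] at hz
  obtain ⟨r, rfl⟩ := hz
  have hr0 : r ≠ 0 := by
    rintro rfl
    exact hz0 (map_zero _)
  obtain ⟨k, hk, -⟩ := val_int_pow w q hqp hq r.num (Rat.num_ne_zero.mpr hr0)
  obtain ⟨l, hl, -⟩ := val_int_pow w q hqp hq (r.den : ℤ) (by exact_mod_cast r.den_nz)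
  have e : (algebraMap ℚ Qb r) = ((r.num : ℤ) : Qb) / (((r.den : ℕ) : ℤ) : Qb) := by
    conv_lhs => rw [← Rat.num_div_den r]
    rw [map_div₀]
    simp
  have hq0 : w (q : Qb) ≠ 0 := by
    rw [Valuation.ne_zero_iff]
    exact_mod_cast hqp.ne_zero
  refine ⟨(k : ℤ) - l, ?_⟩
  rw [e, map_div₀, hk, hl, zpow_sub₀ hq0, zpow_natCast, zpow_natCast]

/-- adjoining a square root of a unit -/
lemma un_quad (M : IntermediateField ℚ Qb) (t : Qb) (htM : t ^ 2 ∈ M) (ht : w t = 1)
    (h2 : w (2 : Qb) = 1) (hM : Un w q M) :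
    Un w q (M ⊔ IntermediateField.adjoin ℚ {t}) := by
  intro y hy hy0
  obtain ⟨α, hα, β, hβ, rfl⟩ := quad_mem M t htM y hy
  by_cases hβ0 : β = 0
  · subst hβ0
    rw [zero_mul, add_zero] at hy0 ⊢
    exact hM _ hα hy0
  obtain ⟨l, hl⟩ := hM β hβ hβ0
  have hwβ : w (β * t) = w β := by rw [map_mul, ht, mul_one]
  by_cases hα0 : α = 0
  · subst hα0
    rw [zero_add, hwβ]
    exact ⟨l, hl⟩
  obtain ⟨k, hk⟩ := hM α hα hα0
  by_cases hne : w α = w β
  · -- the essential case
    have hβw : w β ≠ 0 := (Valuation.ne_zero_iff _).mpr hβ0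
    set γ := α / β with hγ
    have hγM : γ ∈ M := div_mem hα hβ
    have hγ1 : w γ = 1 := by rw [hγ, map_div₀, hne, div_self hβw]
    have e1 : α + β * t = β * (γ + t) := by
      rw [hγ]; field_simp
    have hle1 : w (γ + t) ≤ 1 := (w.map_add _ _).trans (max_le hγ1.le ht.le)
    have hle2 : w (γ - t) ≤ 1 := (w.map_sub _ _).trans (max_le hγ1.le ht.le)
    rcases lt_or_eq_of_le hle1 with h | h
    · have h3 : w (γ - t) = 1 := by
        rcases lt_or_eq_of_le hle2 with h' | h'
        · exfalso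
          have h4 := Valuation.map_sub_lt w h h'
          have e2 : γ + t - (γ - t) = 2 * t := by ring
          rw [e2, map_mul, h2, ht, mul_one] at h4
          exact lt_irrefl _ h4
        · exact h'
      have h5 : w (γ + t) = w (γ ^ 2 - t ^ 2) := by
        have e3 : γ ^ 2 - t ^ 2 = (γ + t) * (γ - t) := by ring
        rw [e3, map_mul, h3, mul_one]
      have h6 : γ ^ 2 - t ^ 2 ≠ 0 := by
        intro h0
        rw [h0, map_zero, Valuation.zero_iff] at h5
        apply hy0
        rw [e1, h5, mul_zero]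
      obtain ⟨j, hj⟩ := hM _ (sub_mem (pow_mem hγM 2) htM) h6
      have hq0 : w (q : Qb) ≠ 0 := by
        intro h0
        rw [h0] at hj
        have h7 : w (γ ^ 2 - t ^ 2) ≠ 0 := (Valuation.ne_zero_iff _).mpr h6
        rw [hj] at h7
        have h8 : j = 0 := by
          by_contra hj0
          exact h7 (zero_zpow j hj0)
        rw [h8, zpow_zero] at hj
        rw [h5, hj] at h
        exact lt_irrefl _ h
      refine ⟨l + j, ?_⟩
      rw [e1, map_mul, h5, hl, hj, zpow_add₀ hq0]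
    · refine ⟨l, ?_⟩
      rw [e1, map_mul, h, mul_one, hl]
  · have h3 : w α ≠ w (β * t) := by rw [hwβ]; exact hne
    rw [Valuation.map_add_of_distinct_val _ h3, hwβ]
    rcases max_choice (w α) (w β) with h | h
    · rw [h]; exact ⟨k, hk⟩
    · rw [h]; exact ⟨l, hl⟩

/-- the gain at a ramified place -/
lemma local_gain (M : IntermediateField ℚ Qb) (hM : Un w q M) (hq : w (q : Qb) < 1)
    (hq0 : w (q : Qb) ≠ 0) (r : Qb) (hr : w r ^ 2 = w (q : Qb)) (α β : Qb) (hα : α ∈ M)
    (hβ : β ∈ M) :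
    w ((α + β * r) - (α - β * r)) ^ 2 ≤
      w (q : Qb) * (max 1 (w (α + β * r)) ^ 2 * max 1 (w (α - β * r)) ^ 2) := by
  have h2 : w (2 : Qb) ≤ 1 := by exact_mod_cast val_nat_le w 2
  have h1m : (1 : Γ) ≤ max 1 (w (α + β * r)) ^ 2 * max 1 (w (α - β * r)) ^ 2 :=
    one_le_mul (one_le_pow₀ (le_max_left _ _)) (one_le_pow₀ (le_max_left _ _))
  by_cases hβ0 : β = 0
  · subst hβ0
    simp
  have hB : w β ≠ 0 := (Valuation.ne_zero_iff _).mpr hβ0
  have hr0 : w r ≠ 0 := by
    intro h
    rw [h, zero_pow two_ne_zero] at hr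
    exact hq0 hr.symm
  obtain ⟨l, hl⟩ := hM β hβ hβ0
  have hge : w (β * r) ≤ w (α + β * r) ∧ w (β * r) ≤ w (α - β * r) := by
    by_cases hα0 : α = 0
    · subst hα0
      rw [zero_add, zero_sub, Valuation.map_neg]
      exact ⟨le_rfl, le_rfl⟩
    · obtain ⟨k, hk⟩ := hM α hα hα0
      have hne : w α ≠ w (β * r) := by
        intro h
        have h3 : w (q : Qb) ^ (2 * k) = w (q : Qb) ^ (2 * l + 1) := by
          rw [zpow_add₀ hq0, zpow_one, mul_comm 2 k, mul_comm 2 l, zpow_mul, zpow_mul, ← hk, ← hl,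
            ← hr]
          rw [h, map_mul]
          have : (2 : ℤ) = ((2 : ℕ) : ℤ) := rfl
          rw [this, zpow_natCast, zpow_natCast, mul_pow]
        have h4 := zpow_right_injective₀ (zero_lt_iff.mpr hq0) hq.ne h3
        omega
      refine ⟨?_, ?_⟩
      · rw [Valuation.map_add_of_distinct_val _ hne]
        exact le_max_right _ _
      · rw [sub_eq_add_neg, Valuation.map_add_of_distinct_val _
          (by rw [Valuation.map_neg]; exact hne), Valuation.map_neg]
        exact le_max_right _ _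
  have e1 : w ((α + β * r) - (α - β * r)) ^ 2 ≤ w β ^ 2 * w (q : Qb) := by
    have e2 : (α + β * r) - (α - β * r) = 2 * (β * r) := by ring
    rw [e2, map_mul, map_mul, mul_pow, mul_pow, hr]
    calc w 2 ^ 2 * (w β ^ 2 * w (q : Qb)) ≤ 1 * (w β ^ 2 * w (q : Qb)) := by
          gcongr
          exact pow_le_one' h2 2
      _ = _ := one_mul _
  refine e1.trans ?_
  rcases le_or_gt (w β) 1 with h | h
  · calc w β ^ 2 * w (q : Qb) ≤ 1 * w (q : Qb) := by
          gcongr
          exact pow_le_one' h 2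
      _ = w (q : Qb) * 1 := by rw [one_mul, mul_one]
      _ ≤ _ := by gcongr
  · have hbq : 1 ≤ w β * w (q : Qb) := by
      have hl1 : l ≤ -1 := by
        by_contra hcon
        push Not at hcon
        have : 0 ≤ l := by omega
        rw [hl] at h
        have h9 := zpow_le_zpow_right_of_le_one₀ (zero_lt_iff.mpr hq0) hq.le this
        rw [zpow_zero] at h9
        exact absurd h (not_lt.mpr h9)
      have h5 : w (q : Qb) ^ (-1 : ℤ) ≤ w β := by
        rw [hl]
        exact zpow_le_zpow_right_of_le_one₀ (zero_lt_iff.mpr hq0) hq.le hl1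
      calc (1 : Γ) = w (q : Qb) ^ (-1 : ℤ) * w (q : Qb) := by
            rw [zpow_neg_one, inv_mul_cancel₀ hq0]
        _ ≤ _ := by gcongr
    have h6 : w (β * r) ^ 2 ≤ max 1 (w (α + β * r)) ^ 2 :=
      pow_le_pow_left₀ zero_le (hge.1.trans (le_max_right _ _)) 2
    have h7 : w (β * r) ^ 2 ≤ max 1 (w (α - β * r)) ^ 2 :=
      pow_le_pow_left₀ zero_le (hge.2.trans (le_max_right _ _)) 2
    calc w β ^ 2 * w (q : Qb) = (w β ^ 2 * w (q : Qb)) * 1 := (mul_one _).symm
      _ ≤ (w β ^ 2 * w (q : Qb)) * (w β * w (q : Qb)) ^ 2 := by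
          gcongr
          exact one_le_pow₀ hbq
      _ = w (q : Qb) * (w (β * r) ^ 2 * w (β * r) ^ 2) := by
          simp only [map_mul, mul_pow, hr]
          simp only [sq]
          ac_rfl
      _ ≤ _ := by gcongr

end

end Pool.Agent.W70.LD
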