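import Mathlib
import Pool.Agent.W70.LD.Place

set_option autoImplicit false

/-!
# The choice of a large prime and of an integer
-/

namespace Pool.Agent.W70.LD

open Module Polynomial
open Pool.Agent.H58P (Qb ht qb_isIntegral)

lemma exists_prime_dvd_eval (f : ℤ[X]) (hf : 0 < f.natDegree) (P R : ℕ) (hP : 0 < P) :
    ∃ m : ℤ, ∃ q : ℕ, q.Prime ∧ R < q ∧ (P : ℤ) ∣ m - 1 ∧ (q : ℤ) ∣ f.eval m := by
  -- a base point
  have hne : ∀ c : ℤ, f - C c ≠ 0 := by
    intro c h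
    have : f = C c := sub_eq_zero.mp h
    rw [this, natDegree_C] at hf
    exact lt_irrefl _ hf
  have hfin : ∀ c : ℤ, {m : ℤ | f.eval m = c}.Finite := by
    intro c
    refine ((f - C c).roots.toFinset.finite_toSet).subset ?_
    intro m hm
    have hm' : f.eval m = c := hm
    rw [Finset.mem_coe, Multiset.mem_toFinset, mem_roots (hne c), IsRoot.def, eval_sub, eval_C, hm',
      sub_self]
  have hP' : (P : ℤ) ≠ 0 := by exact_mod_cast hP.ne'
  obtain ⟨m0, ⟨j, hj⟩, hm0⟩ : ∃ m0 : ℤ, (∃ j : ℤ, m0 = 1 + P * j) ∧ f.eval m0 ≠ 0 := by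
    have hinf : (Set.range fun j : ℤ => 1 + (P : ℤ) * j).Infinite := by
      apply Set.infinite_range_of_injective
      intro a b hab
      simp only [add_right_inj] at hab
      exact mul_left_cancel₀ hP' hab
    obtain ⟨m0, hm, hm'⟩ := hinf.exists_notMem_finite (hfin 0)
    obtain ⟨j, hj⟩ := hm
    exact ⟨m0, ⟨j, hj.symm⟩, hm'⟩
  set A : ℤ := f.eval m0 with hA
  set M : ℤ := (R.factorial : ℤ) * P with hM
  have hM0 : M ≠ 0 := mul_ne_zero (by exact_mod_cast R.factorial_ne_zero) hP'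
  obtain ⟨m, ⟨s, hs⟩, hm1, hm2⟩ : ∃ m : ℤ, (∃ s : ℤ, m = m0 + M * A * s) ∧ f.eval m ≠ A ∧
      f.eval m ≠ -A := by
    have hinf : (Set.range fun s : ℤ => m0 + M * A * s).Infinite := by
      apply Set.infinite_range_of_injective
      intro a b hab
      simp only [add_right_inj] at hab
      exact mul_left_cancel₀ (mul_ne_zero hM0 hm0) hab
    obtain ⟨m, hm, hm'⟩ := hinf.exists_notMem_finite ((hfin A).union (hfin (-A)))
    obtain ⟨s, hs⟩ := hm
    refine ⟨m, ⟨s, hs.symm⟩, fun h => hm' (Or.inl h), fun h => hm' (Or.inr h)⟩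
  obtain ⟨k, hk⟩ : M * A ∣ f.eval m - A := by
    have h1 := f.sub_dvd_eval_sub m m0
    refine Dvd.dvd.trans ?_ h1
    rw [hs]
    exact ⟨s, by ring⟩
  have hk' : f.eval m = A * (1 + M * k) := by linear_combination hk
  have hnat : (1 + M * k).natAbs ≠ 1 := by
    intro h
    rcases Int.natAbs_eq (1 + M * k) with h' | h'
    · rw [h] at h'
      apply hm1
      rw [hk', h']
      simp
    · rw [h] at h'
      apply hm2
      rw [hk', h']
      simp
  obtain ⟨q, hq, hqd⟩ := Nat.exists_prime_and_dvd hnat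
  have hqd' : (q : ℤ) ∣ 1 + M * k := Int.natCast_dvd.mpr hqd
  refine ⟨m, q, hq, ?_, ?_, ?_⟩
  · by_contra hcon
    push Not at hcon
    have h1 : (q : ℤ) ∣ M := by
      rw [hM]
      exact Dvd.dvd.mul_right (by exact_mod_cast hq.dvd_factorial.mpr hcon) _
    have h2 : (q : ℤ) ∣ 1 := (Int.dvd_add_left (h1.mul_right k)).mp hqd'
    have h3 := Int.le_of_dvd one_pos h2
    have := hq.two_le
    omega
  · rw [hs, hj, hM]
    exact ⟨j + R.factorial * A * s, by ring⟩
  · rw [hk']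
    exact hqd'.mul_left _

open Classical in
/-- the conjugates of an algebraic integer -/
noncomputable def conj (θ : Qb) : Finset Qb :=
  ((minpoly ℤ θ).map (algebraMap ℤ Qb)).roots.toFinset

lemma minpoly_map (θ : Qb) (hθ : IsIntegral ℤ θ) :
    (minpoly ℤ θ).map (algebraMap ℤ Qb) = (minpoly ℚ θ).map (algebraMap ℚ Qb) := by
  have h1 : minpoly ℚ θ = (minpoly ℤ θ).map (algebraMap ℤ ℚ) :=
    minpoly.isIntegrallyClosed_eq_field_fractions' ℚ hθ
  rw [h1, Polynomial.map_map]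
  rfl

lemma prod_conj (θ : Qb) (hθ : IsIntegral ℤ θ) :
    (minpoly ℤ θ).map (algebraMap ℤ Qb) = ∏ s ∈ conj θ, (X - C s) := by
  classical
  set F := (minpoly ℤ θ).map (algebraMap ℤ Qb) with hF
  have hsplit : F.Splits := IsAlgClosed.splits _
  have hsep : F.Separable := by
    rw [hF, minpoly_map θ hθ]
    exact (minpoly.irreducible (qb_isIntegral θ)).separable.map
  have hnodup : F.roots.Nodup := nodup_roots hsep
  have h1 := hsplit.eq_prod_roots
  rw [((minpoly.monic hθ).map _).leadingCoeff, C_1, one_mul] at h1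
  refine h1.trans ?_
  show _ = Multiset.prod (Multiset.map (fun s => X - C s) (conj θ).val)
  unfold conj
  rw [Multiset.toFinset_val, ← hF]
  congr 2
  exact hnodup.dedup.symm

lemma mem_conj_iff (θ : Qb) (hθ : IsIntegral ℤ θ) (s : Qb) :
    s ∈ conj θ ↔ ∃ σ : Qb ≃ₐ[ℚ] Qb, σ θ = s := by
  classical
  have hmon := minpoly.monic (qb_isIntegral θ)
  have h1 : s ∈ conj θ ↔ aeval s (minpoly ℚ θ) = 0 := by
    unfold conj
    rw [Multiset.mem_toFinset, minpoly_map θ hθ, mem_roots (hmon.map _).ne_zero, IsRoot.def,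
      eval_map_algebraMap]
  rw [h1]
  constructor
  · intro h
    have h2 : minpoly ℚ s = minpoly ℚ θ :=
      (minpoly.eq_of_irreducible_of_monic (minpoly.irreducible (qb_isIntegral θ)) h hmon).symm
    have hcl : IsAlgClosure ℚ Qb := ⟨inferInstance, ⟨fun z => (qb_isIntegral z).isAlgebraic⟩⟩
    have hn : Normal ℚ Qb := IsAlgClosure.normal ℚ Qb
    obtain ⟨σ, hσ⟩ := (Normal.minpoly_eq_iff_mem_orbit Qb).mp h2
    exact ⟨σ, hσ⟩
  · rintro ⟨σ, rfl⟩
    have h3 : aeval (σ θ) (minpoly ℚ θ) = σ (aeval θ (minpoly ℚ θ)) :=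
      (aeval_algHom_apply (σ : Qb →ₐ[ℚ] Qb) θ _)
    rw [h3, minpoly.aeval, map_zero]

lemma conj_integral (θ : Qb) (hθ : IsIntegral ℤ θ) (s : Qb) (hs : s ∈ conj θ) :
    IsIntegral ℤ s := by
  obtain ⟨σ, rfl⟩ := (mem_conj_iff θ hθ s).mp hs
  exact hθ.map (σ : Qb →+* Qb).toIntAlgHom

lemma self_mem_conj (θ : Qb) (hθ : IsIntegral ℤ θ) : θ ∈ conj θ :=
  (mem_conj_iff θ hθ θ).mpr ⟨AlgEquiv.refl, rfl⟩

lemma eval_conj (θ : Qb) (hθ : IsIntegral ℤ θ) (m : ℤ) :
    (((minpoly ℤ θ).eval m : ℤ) : Qb) = ∏ s ∈ conj θ, ((m : Qb) - s) := by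
  have h1 := congrArg (eval (m : Qb)) (prod_conj θ hθ)
  rw [eval_prod] at h1
  simp only [eval_sub, eval_X, eval_C] at h1
  rw [← h1, eval_intCast_map]
  simp

/-- the integer and the prime -/
theorem choose_prime (θ : Qb) (hθ : IsIntegral ℤ θ) (P R : ℕ) (hP : 0 < P) :
    ∃ m : ℤ, ∃ q : ℕ, q.Prime ∧ R < q ∧ (P : ℤ) ∣ m - 1 ∧
      ∀ V : ValuationSubring Qb, V.valuation (q : Qb) < 1 →
        ∃ s₀ ∈ conj θ, V.valuation ((m : Qb) - s₀) = V.valuation (q : Qb) ∧
          ∀ s ∈ conj θ, s ≠ s₀ → V.valuation ((m : Qb) - s) = 1 := by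
  classical
  -- the differences
  have hdiff : ∀ p : Qb × Qb, ∃ N : ℕ, 0 < N ∧ (p.1 ∈ conj θ → p.2 ∈ conj θ → p.1 ≠ p.2 →
      ∃ y : Qb, IsIntegral ℤ y ∧ (p.1 - p.2) * y = N) := by
    intro p
    by_cases h : p.1 ∈ conj θ ∧ p.2 ∈ conj θ ∧ p.1 ≠ p.2
    · obtain ⟨N, hN, y, hy, hy2⟩ := exists_cofactor (p.1 - p.2)
        ((conj_integral θ hθ _ h.1).sub (conj_integral θ hθ _ h.2.1)) (sub_ne_zero.mpr h.2.2)
      exact ⟨N, hN, fun _ _ _ => ⟨y, hy, hy2⟩⟩
    · exact ⟨1, one_pos, fun h1 h2 h3 => absurd ⟨h1, h2, h3⟩ h⟩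
  choose N hN0 hN using hdiff
  set T : ℕ := ∏ p ∈ conj θ ×ˢ conj θ, N p with hT
  have hT0 : 0 < T := Finset.prod_pos fun p _ => hN0 p
  obtain ⟨m₁, q, hqp, hq, hm₁, hqf⟩ := exists_prime_dvd_eval (minpoly ℤ θ)
    (minpoly.natDegree_pos hθ) P (R + T + P) hP
  have hqT : ∀ p ∈ conj θ ×ˢ conj θ, ¬ (q : ℤ) ∣ (N p : ℤ) := by
    intro p hp h
    have h1 : q ∣ N p := by exact_mod_cast h
    have h2 : N p ≤ T := Finset.single_le_prod' (f := N) (fun i _ => hN0 i) hp
    have h3 := Nat.le_of_dvd (hN0 p) h1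
    omega
  have hqP : ¬ (q : ℤ) ∣ (P : ℤ) := by
    intro h
    have h1 : q ∣ P := by exact_mod_cast h
    have h3 := Nat.le_of_dvd hP h1
    omega
  -- the places over the prime
  have hpl : ∀ V : ValuationSubring Qb, V.valuation (q : Qb) < 1 →
      ∃ s₀ ∈ conj θ, V.valuation ((m₁ : Qb) - s₀) =
        V.valuation (((minpoly ℤ θ).eval m₁ : ℤ) : Qb) ∧
        ∀ s ∈ conj θ, s ≠ s₀ → V.valuation ((m₁ : Qb) - s) = 1 := by
    intro V hV
    have h1 : V.valuation (((minpoly ℤ θ).eval m₁ : ℤ) : Qb) < 1 := by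
      obtain ⟨k, hk⟩ := hqf
      rw [hk]
      push_cast
      rw [map_mul]
      exact mul_lt_one_of_lt_of_le hV (val_int_le _ k)
    have hle : ∀ s ∈ conj θ, V.valuation ((m₁ : Qb) - s) ≤ 1 := fun s hs =>
      val_integral_le _ _ ((isIntegral_intCast m₁).sub (conj_integral θ hθ s hs))
    obtain ⟨s₀, hs₀, hlt⟩ : ∃ s₀ ∈ conj θ, V.valuation ((m₁ : Qb) - s₀) < 1 := by
      by_contra hcon
      push Not at hcon
      rw [eval_conj θ hθ, map_prod] at h1
      refine absurd h1 (not_lt.mpr (le_of_eq ?_))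
      symm
      exact Finset.prod_eq_one fun s hs => le_antisymm (hle s hs) (hcon s hs)
    have hother : ∀ s ∈ conj θ, s ≠ s₀ → V.valuation ((m₁ : Qb) - s) = 1 := by
      intro s hs hne
      obtain ⟨y, hy, hy2⟩ := hN (s₀, s) hs₀ hs hne.symm
      have h2 : V.valuation (s₀ - s) = 1 := by
        apply val_eq_one_of_mul V.valuation (s₀ - s) y (N (s₀, s) : Qb)
          ((conj_integral θ hθ _ hs₀).sub (conj_integral θ hθ _ hs)) hy hy2
        have := val_coprime V.valuation q hqp hV (N (s₀, s) : ℤ)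
          (hqT _ (Finset.mem_product.mpr ⟨hs₀, hs⟩))
        exact_mod_cast this
      have h3 : (m₁ : Qb) - s = ((m₁ : Qb) - s₀) + (s₀ - s) := by ring
      rw [h3, Valuation.map_add_eq_of_lt_right _ (by rw [h2]; exact hlt), h2]
    refine ⟨s₀, hs₀, ?_, hother⟩
    rw [eval_conj θ hθ, map_prod, ← Finset.mul_prod_erase _ _ hs₀, Finset.prod_eq_one, mul_one]
    intro s hs
    exact hother s (Finset.mem_of_mem_erase hs) (Finset.ne_of_mem_erase hs)
  by_cases hsq : (q : ℤ) ^ 2 ∣ (minpoly ℤ θ).eval m₁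
  · -- move the integer
    refine ⟨m₁ + P * q, q, hqp, by omega, ?_, ?_⟩
    · obtain ⟨j, hj⟩ := hm₁
      exact ⟨j + q, by linear_combination hj⟩
    · intro V hV
      obtain ⟨s₀, hs₀, h1, h2⟩ := hpl V hV
      have hq0 : V.valuation (q : Qb) ≠ 0 := by
        rw [Valuation.ne_zero_iff]
        exact_mod_cast hqp.ne_zero
      have hPv : V.valuation (P : Qb) = 1 := by
        have := val_coprime V.valuation q hqp hV (P : ℤ) hqP
        exact_mod_cast this
      have hPq : V.valuation ((P : Qb) * (q : Qb)) = V.valuation (q : Qb) := by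
        rw [map_mul, hPv, one_mul]
      have h3 : V.valuation ((m₁ : Qb) - s₀) < V.valuation (q : Qb) := by
        rw [h1]
        obtain ⟨k, hk⟩ := hsq
        rw [hk]
        push_cast
        rw [map_mul, map_pow, sq]
        calc V.valuation (q : Qb) * V.valuation (q : Qb) * V.valuation (k : Qb)
            ≤ V.valuation (q : Qb) * V.valuation (q : Qb) * 1 := by
              gcongr; exact val_int_le _ k
          _ < V.valuation (q : Qb) * 1 * 1 := by
              rw [mul_one, mul_one]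
              exact mul_lt_mul_of_pos_left hV (zero_lt_iff.mpr hq0)
          _ = V.valuation (q : Qb) := by rw [mul_one, mul_one]
      refine ⟨s₀, hs₀, ?_, ?_⟩
      · have e : (((m₁ + P * q : ℤ) : Qb)) - s₀ = ((m₁ : Qb) - s₀) + (P : Qb) * (q : Qb) := by
          push_cast; ring
        rw [e, Valuation.map_add_eq_of_lt_right _ (by rw [hPq]; exact h3), hPq]
      · intro s hs hne
        have e : (((m₁ + P * q : ℤ) : Qb)) - s = ((m₁ : Qb) - s) + (P : Qb) * (q : Qb) := by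
          push_cast; ring
        rw [e, Valuation.map_add_eq_of_lt_left _ (by rw [hPq, h2 s hs hne]; exact hV), h2 s hs hne]
  · refine ⟨m₁, q, hqp, by omega, hm₁, ?_⟩
    intro V hV
    obtain ⟨s₀, hs₀, h1, h2⟩ := hpl V hV
    refine ⟨s₀, hs₀, ?_, h2⟩
    rw [h1]
    have hne : (minpoly ℤ θ).eval m₁ ≠ 0 := by
      intro h
      rw [h] at hsq
      exact hsq (dvd_zero _)
    obtain ⟨k, hk, -, hk1⟩ := val_int_pow V.valuation q hqp hV _ hne
    rw [hk, hk1.mpr ⟨hqf, hsq⟩, pow_one]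

end Pool.Agent.W70.LD
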