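import Mathlib
import Pool.Agent.W70.LD.Prod
import Pool.Agent.W70.LD.Place

set_option autoImplicit false

/-!
# The height bound from a gain at the places over a prime
-/

namespace Pool.Agent.W70.LD

open Module
open Pool.Agent.H58P (Qb ht qb_isIntegral)

lemma trivial_gain {Γ : Type*} [LinearOrderedCommGroupWithZero Γ] (w : Valuation Qb Γ)
    (a b : Qb) : w (a - b) ^ 2 ≤ max 1 (w a) ^ 2 * max 1 (w b) ^ 2 := by
  rw [← mul_pow]
  apply pow_le_pow_left₀ zero_le
  refine (w.map_sub a b).trans (max_le ?_ ?_)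
  · calc w a = w a * 1 := (mul_one _).symm
      _ ≤ _ := mul_le_mul' (le_max_right _ _) (le_max_left _ _)
  · calc w b = 1 * w b := (one_mul _).symm
      _ ≤ _ := mul_le_mul' (le_max_left _ _) (le_max_right _ _)

lemma arch_gain (a b : ℂ) : ‖a - b‖ ^ 2 ≤ 4 * (max ‖a‖ 1 ^ 2 * max ‖b‖ 1 ^ 2) := by
  have h1 := norm_sub_le a b
  have ha := le_max_left ‖a‖ 1
  have hb := le_max_left ‖b‖ 1
  have ha1 := le_max_right ‖a‖ 1
  have hb1 := le_max_right ‖b‖ 1
  set A := max ‖a‖ 1
  set B := max ‖b‖ 1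
  have h2 : ‖a - b‖ ≤ 2 * (A * B) := by nlinarith
  calc ‖a - b‖ ^ 2 ≤ (2 * (A * B)) ^ 2 := pow_le_pow_left₀ (norm_nonneg _) h2 2
    _ = _ := by ring

theorem height_gain (S : Finset Qb) (g : Qb → (Qb ≃ₐ[ℚ] Qb)) (q : ℕ) (hq : 0 < q)
    (y y' : Qb) (hne : y ≠ y') (hyy' : ht y' = ht y)
    (hV : ∀ V : ValuationSubring Qb, V.valuation (q : Qb) < 1 → ∃ ρ ∈ S,
      V.valuation (g ρ (y - y')) ^ 2 ≤ V.valuation (q : Qb) *
        (max 1 (V.valuation (g ρ y)) ^ 2 * max 1 (V.valuation (g ρ y')) ^ 2)) :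
    Real.log q - S.card * Real.log 4 ≤ 4 * S.card * ht y := by
  classical
  have hq' : (q : Qb) ≠ 0 := by exact_mod_cast hq.ne'
  set D : Qb := (∏ ρ ∈ S, (g ρ (y - y')) ^ 2) / q with hD
  have hD0 : D ≠ 0 := by
    apply div_ne_zero _ hq'
    apply Finset.prod_ne_zero_iff.mpr
    intro ρ _
    apply pow_ne_zero
    rw [Ne, EmbeddingLike.map_eq_zero_iff]
    exact sub_ne_zero.mpr hne
  set Y : S × Bool × Bool → Qb := fun j => g j.1.1 (if j.2.1 then y else y') with hY
  have hprod : ∀ {M : Type} [CommMonoid M] (F : Qb → M), ∏ j, F (Y j) =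
      ∏ ρ ∈ S, (F (g ρ y) ^ 2 * F (g ρ y') ^ 2) := by
    intro M _ F
    rw [Fintype.prod_prod_type, ← Finset.prod_coe_sort S]
    refine Finset.prod_congr rfl fun ρ _ => ?_
    rw [Fintype.prod_prod_type]
    simp [hY, sq]
  have key := height_prod_ge D hD0 Y ((q : ℝ) / 4 ^ S.card) (by positivity) ?_ ?_
  · -- the conclusion
    have h1 : ∑ j, ht (Y j) = 4 * S.card * ht y := by
      rw [Fintype.sum_prod_type]
      have h2 : ∀ ρ : S, ∑ b : Bool × Bool, ht (Y (ρ, b)) = 4 * ht y := by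
        intro ρ
        rw [Fintype.sum_prod_type]
        simp only [hY, Fintype.sum_bool, if_true, Bool.false_eq_true, if_false]
        rw [H58B.ht_conj, H58B.ht_conj, hyy']
        ring
      simp only [h2]
      rw [Finset.sum_const, Finset.card_univ, Fintype.card_coe, nsmul_eq_mul]
      ring
    rw [h1, Real.log_div (by exact_mod_cast hq.ne') (by positivity), Real.log_pow] at key
    exact key
  · intro V
    rw [hprod (fun z => max 1 (V.valuation z)), hD, map_div₀, map_prod]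
    have hq0 : 0 < V.valuation (q : Qb) := by
      rw [zero_lt_iff, Valuation.ne_zero_iff]
      exact hq'
    rw [div_le_iff₀ hq0]
    have hle := val_nat_le V.valuation q
    rcases lt_or_eq_of_le hle with h | h
    · obtain ⟨ρ, hρ, hgain⟩ := hV V h
      rw [← Finset.mul_prod_erase _ _ hρ, ← Finset.mul_prod_erase S (fun ρ =>
        (max 1 (V.valuation (g ρ y)) ^ 2 * max 1 (V.valuation (g ρ y')) ^ 2)) hρ]
      have h3 : ∏ x ∈ S.erase ρ, V.valuation ((g x (y - y')) ^ 2) ≤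
          ∏ ρ ∈ S.erase ρ, (max 1 (V.valuation (g ρ y)) ^ 2 *
            max 1 (V.valuation (g ρ y')) ^ 2) := by
        apply Finset.prod_le_prod' 
        intro x _
        rw [map_sub, map_pow]
        exact trivial_gain V.valuation _ _
      rw [map_pow]
      calc _ ≤ (V.valuation (q : Qb) *
        (max 1 (V.valuation (g ρ y)) ^ 2 * max 1 (V.valuation (g ρ y')) ^ 2)) *
          ∏ ρ ∈ S.erase ρ, (max 1 (V.valuation (g ρ y)) ^ 2 *
            max 1 (V.valuation (g ρ y')) ^ 2) := mul_le_mul' hgain h3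
        _ = _ := by ac_rfl
    · rw [h, mul_one]
      apply Finset.prod_le_prod'
      intro x _
      rw [map_sub, map_pow]
      exact trivial_gain V.valuation _ _
  · intro φ
    rw [hprod (fun z => max ‖φ z‖ 1), hD, map_div₀, norm_div, map_prod, norm_prod, map_natCast,
      Complex.norm_natCast]
    have hq2 : (q : ℝ) ≠ 0 := by exact_mod_cast hq.ne'
    have e : (q : ℝ) / 4 ^ S.card * ((∏ ρ ∈ S, ‖φ ((g ρ (y - y')) ^ 2)‖) / q) =
        ∏ ρ ∈ S, (‖φ (g ρ y) - φ (g ρ y')‖ ^ 2 / 4) := by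
      rw [Finset.prod_div_distrib, Finset.prod_const]
      have e2 : ∏ ρ ∈ S, ‖φ ((g ρ (y - y')) ^ 2)‖ = ∏ ρ ∈ S, ‖φ (g ρ y) - φ (g ρ y')‖ ^ 2 := by
        refine Finset.prod_congr rfl fun ρ _ => ?_
        rw [map_pow, norm_pow, map_sub, map_sub]
      rw [e2]
      field_simp
    rw [e]
    apply Finset.prod_le_prod
    · intro ρ _
      positivity
    · intro ρ _
      have := arch_gain (φ (g ρ y)) (φ (g ρ y'))
      linarith

end Pool.Agent.W70.LD
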