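import Mathlib
import Pool.Agent.W70.LD.Gain
import Pool.Agent.W70.LD.Choose

set_option autoImplicit false

/-!
# One stage of the tower
-/

namespace Pool.Agent.W70.LD

open Module
open Pool.Agent.H58P (Qb ht qb_isIntegral alg_isIntegral)
open Pool.Agent.H58B (quad_mem exists_neg ht_conj)

lemma eq_one_of_sq {Γ : Type*} [LinearOrderedCommGroupWithZero Γ] (a : Γ) (h : a ^ 2 = 1) :
    a = 1 := by
  rcases lt_trichotomy a 1 with h1 | h1 | h1
  · have h2 : a ^ 2 < 1 := by
      rw [sq]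
      exact mul_lt_one_of_lt_of_le h1 h1.le
    rw [h] at h2
    exact absurd h2 (lt_irrefl _)
  · exact h1
  · have h2 : 1 < a ^ 2 := one_lt_pow₀ h1 two_ne_zero
    rw [h] at h2
    exact absurd h2 (lt_irrefl _)

/-- rational algebraic integers are integers -/
lemma int_dvd (P : ℕ) (hP : 0 < P) (c : ℤ) (t : Qb) (ht : IsIntegral ℤ t)
    (h : (c : Qb) = P * t) : (P : ℤ) ∣ c := by
  have hP' : (P : Qb) ≠ 0 := by exact_mod_cast hP.ne'
  have h1 : t = algebraMap ℚ Qb ((c : ℚ) / P) := by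
    rw [map_div₀]
    simp only [map_intCast, map_natCast]
    rw [h, mul_comm, mul_div_assoc, div_self hP', mul_one]
  rw [h1, isIntegral_algebraMap_iff (algebraMap ℚ Qb).injective] at ht
  obtain ⟨y, hy⟩ := IsIntegrallyClosed.isIntegral_iff.mp ht
  have hP'' : (P : ℚ) ≠ 0 := by exact_mod_cast hP.ne'
  refine ⟨y, ?_⟩
  have h2 : (y : ℚ) = (c : ℚ) / P := hy
  have h3 : (c : ℚ) = P * y := by rw [h2]; field_simp
  exact_mod_cast h3

lemma prod_one_add (P : ℕ) (T : Finset Qb) (f : Qb → Qb)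
    (hf : ∀ s ∈ T, ∃ t : Qb, IsIntegral ℤ t ∧ f s = 1 + P * t) :
    ∃ t : Qb, IsIntegral ℤ t ∧ ∏ s ∈ T, f s = 1 + P * t := by
  classical
  induction T using Finset.induction_on with
  | empty => exact ⟨0, isIntegral_zero, by simp⟩
  | insert a T ha ih =>
    obtain ⟨t, ht, ht2⟩ := ih fun s hs => hf s (Finset.mem_insert_of_mem hs)
    obtain ⟨t', ht', ht2'⟩ := hf a (Finset.mem_insert_self _ _)
    refine ⟨t + t' + P * (t * t'),
      (ht.add ht').add ((isIntegral_natCast P).mul (ht.mul ht')), ?_⟩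
    rw [Finset.prod_insert ha, ht2, ht2']
    ring

/-- there is a place over a rational prime -/
lemma exists_over (q : ℕ) (hq : q.Prime) : ∃ V : ValuationSubring Qb, V.valuation (q : Qb) < 1 := by
  have hq0 : (q : Qb) ≠ 0 := by exact_mod_cast hq.ne_zero
  have h1 : (q : Qb)⁻¹ ∉ (integralClosure ℤ Qb).toSubring := by
    intro h
    have h2 : IsIntegral ℤ ((q : Qb)⁻¹) := h
    have h5 : IsIntegral ℤ ((q : ℚ)⁻¹) := by
      rw [← isIntegral_algebraMap_iff (algebraMap ℚ Qb).injective]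
      simpa using h2
    obtain ⟨y, hy⟩ := IsIntegrallyClosed.isIntegral_iff.mp h5
    have hq0' : (q : ℚ) ≠ 0 := by exact_mod_cast hq.ne_zero
    have h6 : (y : ℚ) * q = 1 := by
      have : (y : ℚ) = (q : ℚ)⁻¹ := hy
      rw [this, inv_mul_cancel₀ hq0']
    have h7 : y * q = 1 := by exact_mod_cast h6
    have h8 : (q : ℤ) ∣ 1 := ⟨y, by rw [mul_comm]; exact h7.symm⟩
    have h9 := Int.le_of_dvd one_pos h8
    have := hq.two_le
    omega
  obtain ⟨V, -, hV⟩ := Subring.exists_le_valuationSubring_of_isIntegrallyClosedIn h1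
  refine ⟨V, ?_⟩
  rw [← ValuationSubring.valuation_le_one_iff, not_le, map_inv₀] at hV
  exact (one_lt_inv₀ (zero_lt_iff.mpr ((Valuation.ne_zero_iff _).mpr hq0))).mp hV

/-- the fields of the tower: finite, normal, and unramified away from `N` -/
structure Good (E : IntermediateField ℚ Qb) (N : ℕ) : Prop where
  fin : FiniteDimensional ℚ E
  nor : ∀ σ : Qb ≃ₐ[ℚ] Qb, ∀ z ∈ E, σ z ∈ E
  unr : ∀ (V : ValuationSubring Qb) (q : ℕ), q.Prime → V.valuation (q : Qb) < 1 → ¬ q ∣ N →
    Un V.valuation q E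

/-- an integral generator divisible by `P` -/
lemma exists_gen (E : IntermediateField ℚ Qb) (hE : FiniteDimensional ℚ E) (P : ℕ) (hP : 0 < P) :
    ∃ θ ∈ E, ∃ θ' : Qb, IsIntegral ℤ θ' ∧ θ = P * θ' ∧
      ∀ σ τ : Qb ≃ₐ[ℚ] Qb, σ θ = τ θ → ∀ z ∈ E, σ z = τ z := by
  obtain ⟨α, hα⟩ := Field.exists_primitive_element ℚ E
  obtain ⟨n, hn0, hn⟩ : ∃ n : ℤ, n ≠ 0 ∧ IsIntegral ℤ ((n : Qb) * (α : Qb)) := by
    have halg : IsAlgebraic ℤ (α : Qb) := by
      have := (qb_isIntegral (α : Qb)).isAlgebraic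
      exact (IsFractionRing.isAlgebraic_iff ℤ ℚ Qb).mpr this
    obtain ⟨n, hn0, hn⟩ := halg.exists_integral_multiple
    refine ⟨n, hn0, ?_⟩
    rw [zsmul_eq_mul] at hn
    exact hn
  have hnQ : (n : Qb) ≠ 0 := by exact_mod_cast hn0
  have hPQ : (P : Qb) ≠ 0 := by exact_mod_cast hP.ne'
  refine ⟨P * ((n : Qb) * α), ?_, (n : Qb) * α, hn, rfl, ?_⟩
  · exact mul_mem (IntermediateField.natCast_mem E P) (mul_mem (IntermediateField.intCast_mem E n) α.2)
  · intro σ τ hστ z hz
    rw [map_mul, map_mul, map_mul, map_mul, map_natCast, map_natCast, map_intCast, map_intCast]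
      at hστ
    have h1 : σ (α : Qb) = τ (α : Qb) := mul_left_cancel₀ hnQ (mul_left_cancel₀ hPQ hστ)
    have h2 : z ∈ IntermediateField.adjoin ℚ {(α : Qb)} := by
      have h3 : IntermediateField.map E.val (IntermediateField.adjoin ℚ {α}) = E := by
        have h6 : IntermediateField.map E.val (IntermediateField.adjoin ℚ {α}) =
            IntermediateField.map E.val ⊤ := by
          congr 1
        rw [h6, ← AlgHom.fieldRange_eq_map, IntermediateField.fieldRange_val]
      rw [IntermediateField.adjoin_map, Set.image_singleton] at h3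
      have h4 : IntermediateField.adjoin ℚ {(α : Qb)} = E := h3
      rw [h4]
      exact hz
    rw [IntermediateField.mem_adjoin_simple_iff] at h2
    obtain ⟨r, s, rfl⟩ := h2
    have h5 : ∀ (ρ : Qb ≃ₐ[ℚ] Qb) (f : Polynomial ℚ),
        ρ (Polynomial.aeval (α : Qb) f) = Polynomial.aeval (ρ (α : Qb)) f := fun ρ f =>
      (Polynomial.aeval_algHom_apply (ρ : Qb →ₐ[ℚ] Qb) (α : Qb) f).symm
    rw [map_div₀, map_div₀, h5, h5, h5, h5, h1]

section

variable (E : IntermediateField ℚ Qb) (r : Qb → Qb)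

/-- the fields between two stages -/
noncomputable def Mf (T : Finset Qb) : IntermediateField ℚ Qb :=
  E ⊔ IntermediateField.adjoin ℚ (r '' (T : Set Qb))

lemma Mf_empty : Mf E r ∅ = E := by
  unfold Mf
  rw [Finset.coe_empty, Set.image_empty, IntermediateField.adjoin_empty, sup_bot_eq]

open Classical in
lemma Mf_insert (T : Finset Qb) (s : Qb) :
    Mf E r (insert s T) = Mf E r T ⊔ IntermediateField.adjoin ℚ {r s} := by
  unfold Mf
  rw [Finset.coe_insert, Set.image_insert_eq, Set.insert_eq, IntermediateField.adjoin_union,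
    sup_assoc, sup_comm (IntermediateField.adjoin ℚ {r s})]

lemma le_Mf (T : Finset Qb) : E ≤ Mf E r T := le_sup_left

lemma r_mem_Mf (T : Finset Qb) (s : Qb) (hs : s ∈ T) : r s ∈ Mf E r T :=
  (le_sup_right : _ ≤ Mf E r T) (IntermediateField.subset_adjoin _ _ ⟨s, hs, rfl⟩)

open Classical in
lemma exists_layer (S : Finset Qb) (y : Qb) (hy : y ∈ Mf E r S) (hyE : y ∉ E) :
    ∃ T : Finset Qb, ∃ s₀ ∈ S, T ⊆ S ∧ s₀ ∉ T ∧ y ∈ Mf E r (insert s₀ T) ∧ y ∉ Mf E r T := by
  have key : ∀ T : Finset Qb, T ⊆ S → y ∈ Mf E r T →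
      ∃ T : Finset Qb, ∃ s₀ ∈ S, T ⊆ S ∧ s₀ ∉ T ∧ y ∈ Mf E r (insert s₀ T) ∧ y ∉ Mf E r T := by
    intro T
    induction T using Finset.induction_on with
    | empty =>
      intro _ h
      rw [Mf_empty] at h
      exact absurd h hyE
    | insert a T ha ih =>
      intro hsub h
      rw [Finset.insert_subset_iff] at hsub
      by_cases hT : y ∈ Mf E r T
      · exact ih hsub.2 hT
      · exact ⟨T, a, hsub.1, hsub.2, ha, h, hT⟩
  exact key S subset_rfl hy

open Classical in
lemma un_Mf {Γ : Type*} [LinearOrderedCommGroupWithZero Γ] (w : Valuation Qb Γ) (q : ℕ)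
    (h2 : w (2 : Qb) = 1) (hE : Un w q E) (T : Finset Qb) (hr : ∀ s ∈ T, r s ^ 2 ∈ E)
    (hr1 : ∀ s ∈ T, w (r s) = 1) : Un w q (Mf E r T) := by
  induction T using Finset.induction_on with
  | empty => rw [Mf_empty]; exact hE
  | insert a T ha ih =>
    rw [Mf_insert]
    apply un_quad w q _ _ _ (hr1 a (Finset.mem_insert_self _ _)) h2
    · exact ih (fun s hs => hr s (Finset.mem_insert_of_mem hs))
        (fun s hs => hr1 s (Finset.mem_insert_of_mem hs))
    · exact le_Mf E r T (hr a (Finset.mem_insert_self _ _))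

end

theorem stage (E : IntermediateField ℚ Qb) (N : ℕ) (hN : 0 < N) (hE : Good E N) (x : Qb)
    (hxE : x ∈ E) (hx : IsIntegral ℤ x) (hx0 : x ≠ 0) (P p : ℕ) (hP : 0 < P) (hp : 0 < p)
    (B : ℝ) :
    ∃ (E' : IntermediateField ℚ Qb) (N' : ℕ) (x' u u' : Qb) (c : ℤ),
      E ≤ E' ∧ 0 < N' ∧ Good E' N' ∧ x' ∈ E' ∧ IsIntegral ℤ x' ∧ x' ≠ 0 ∧
      x' ^ 2 = p * x * u ∧ IsIntegral ℤ u ∧ IsIntegral ℤ u' ∧ u * u' = c ∧ (P : ℤ) ∣ c - 1 ∧
      u ∈ E' ∧
      ∀ y ∈ E', y ∉ E → B ≤ ht y := by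
  classical
  obtain ⟨θ, hθE, θ', hθ', hθθ', hagree⟩ := exists_gen E hE.fin P hP
  have hθ : IsIntegral ℤ θ := by
    rw [hθθ']
    exact (isIntegral_natCast P).mul hθ'
  set S : Finset Qb := conj θ with hS
  have hsg : ∀ s : Qb, ∃ σ : Qb ≃ₐ[ℚ] Qb, s ∈ S → σ θ = s := by
    intro s
    by_cases hs : s ∈ S
    · obtain ⟨σ, hσ⟩ := (mem_conj_iff θ hθ s).mp hs
      exact ⟨σ, fun _ => hσ⟩
    · exact ⟨AlgEquiv.refl, fun h => absurd h hs⟩
  choose sg hsg using hsg
  -- the integral cofactor of `x`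
  obtain ⟨Nx, hNx, x₁, hx₁, hxx₁⟩ := exists_cofactor x hx hx0
  set n : ℕ := S.card with hn
  have hn0 : 0 < n := Finset.card_pos.mpr ⟨θ, self_mem_conj θ hθ⟩
  obtain ⟨m, q, hqp, hqR, hmP, hplace⟩ := choose_prime θ hθ P
    (N + 2 + p + Nx + ⌈Real.exp (4 * n * B + n * Real.log 4)⌉₊) hP
  have hndvd : ∀ k : ℕ, 0 < k → k < q → ¬ q ∣ k := fun k hk hkq h =>
    absurd (Nat.le_of_dvd hk h) (not_le.mpr hkq)
  have hqN : ¬ q ∣ N := hndvd N hN (by omega)
  have hq2 : ¬ q ∣ 2 := hndvd 2 (by norm_num) (by omega)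
  have hqpp : ¬ q ∣ p := hndvd p hp (by omega)
  have hqNx : ¬ q ∣ Nx := hndvd Nx hNx (by omega)
  have hunit : ∀ V : ValuationSubring Qb, V.valuation (q : Qb) < 1 → ∀ k : ℕ, ¬ q ∣ k →
      V.valuation (k : Qb) = 1 := by
    intro V hV k hk
    have := val_coprime V.valuation q hqp hV (k : ℤ) (by exact_mod_cast hk)
    exact_mod_cast this
  have hmS : ∀ s ∈ S, (m : Qb) - s ≠ 0 := by
    intro s hs h0
    obtain ⟨V, hV⟩ := exists_over q hqp
    obtain ⟨s₀, hs₀, h1, h2⟩ := hplace V hV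
    by_cases h : s = s₀
    · rw [← h, h0, map_zero] at h1
      have : V.valuation (q : Qb) ≠ 0 := by
        rw [Valuation.ne_zero_iff]
        exact_mod_cast hqp.ne_zero
      exact this h1.symm
    · have := h2 s hs h
      rw [h0, map_zero] at this
      exact zero_ne_one this
  -- the square roots
  set a : Qb → Qb := fun s => p * sg s x * ((m : Qb) - s) with ha
  have hr : ∀ s, ∃ r : Qb, r ^ 2 = a s := fun s => by
    obtain ⟨r, hr⟩ := IsAlgClosed.exists_pow_nat_eq (a s) (n := 2) (by norm_num)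
    exact ⟨r, hr⟩
  choose r hr using hr
  have hint : ∀ (σ : Qb ≃ₐ[ℚ] Qb) (z : Qb), IsIntegral ℤ z → IsIntegral ℤ (σ z) :=
    fun σ z hz => hz.map (σ : Qb →+* Qb).toIntAlgHom
  have haint : ∀ s ∈ S, IsIntegral ℤ (a s) := by
    intro s hs
    exact ((isIntegral_natCast p).mul (hint _ _ hx)).mul
      ((isIntegral_intCast m).sub (conj_integral θ hθ s hs))
  have ha0 : ∀ s ∈ S, a s ≠ 0 := by
    intro s hs
    refine mul_ne_zero (mul_ne_zero (by exact_mod_cast hp.ne') ?_) (hmS s hs)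
    rw [Ne, EmbeddingLike.map_eq_zero_iff]
    exact hx0
  have hSE : ∀ s ∈ S, s ∈ E := by
    intro s hs
    rw [← hsg s hs]
    exact hE.nor _ _ hθE
  have haE : ∀ s ∈ S, a s ∈ E := by
    intro s hs
    exact mul_mem (mul_mem (IntermediateField.natCast_mem E p) (hE.nor _ _ hxE))
      (sub_mem (IntermediateField.intCast_mem E m) (hSE s hs))
  -- conjugation of the radicands
  have hconjS : ∀ (σ : Qb ≃ₐ[ℚ] Qb), ∀ s ∈ S, σ s ∈ S := by
    intro σ s hs
    rw [hS, mem_conj_iff θ hθ]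
    exact ⟨(sg s).trans σ, by rw [AlgEquiv.trans_apply, hsg s hs]⟩
  have hconja : ∀ (σ : Qb ≃ₐ[ℚ] Qb), ∀ s ∈ S, σ (a s) = a (σ s) := by
    intro σ s hs
    have h1 : σ (sg s x) = sg (σ s) x := by
      have h2 := hagree ((sg s).trans σ) (sg (σ s))
        (by rw [AlgEquiv.trans_apply, hsg s hs, hsg (σ s) (hconjS σ s hs)]) x hxE
      rw [AlgEquiv.trans_apply] at h2
      exact h2
    simp only [ha, map_mul, map_sub, map_natCast, map_intCast, h1]
  -- the new integer
  have hcof : ∀ s : Qb, ∃ K : ℕ, 0 < K ∧ (s ∈ S → ∃ y : Qb, IsIntegral ℤ y ∧ a s * y = K) := by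
    intro s
    by_cases hs : s ∈ S
    · obtain ⟨K, hK, y, hy, hy2⟩ := exists_cofactor (a s) (haint s hs) (ha0 s hs)
      exact ⟨K, hK, fun _ => ⟨y, hy, hy2⟩⟩
    · exact ⟨1, one_pos, fun h => absurd h hs⟩
  choose K hK0 hK using hcof
  set N' : ℕ := N * 2 * ∏ s ∈ S, K s with hN'
  have hN'0 : 0 < N' := Nat.mul_pos (Nat.mul_pos hN (by norm_num)) (Finset.prod_pos fun s _ => hK0 s)
  set E' := Mf E r S with hE'
  have hrE : ∀ s ∈ S, r s ^ 2 ∈ E := fun s hs => by rw [hr s]; exact haE s hs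
  have hgood : Good E' N' := by
    refine ⟨?_, ?_, ?_⟩
    · have h1 : FiniteDimensional ℚ (IntermediateField.adjoin ℚ (r '' (S : Set Qb))) := by
        have : Finite (r '' (S : Set Qb)) := (S.finite_toSet.image r)
        exact IntermediateField.finiteDimensional_adjoin fun z _ => qb_isIntegral z
      have h2 := hE.fin
      exact IntermediateField.finiteDimensional_sup _ _
    · intro σ
      have h1 : E' ≤ IntermediateField.comap (σ : Qb →ₐ[ℚ] Qb) E' := by
        refine sup_le ?_ ?_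
        · intro z hz
          exact le_Mf E r S (hE.nor σ z hz)
        · rw [IntermediateField.adjoin_le_iff]
          rintro z ⟨s, hs, rfl⟩
          show σ (r s) ∈ E'
          have h2 : σ (r s) ^ 2 = r (σ s) ^ 2 := by
            rw [← map_pow, hr s, hconja σ s hs, hr (σ s)]
          have h3 : r (σ s) ∈ E' := r_mem_Mf E r S _ (hconjS σ s hs)
          rcases sq_eq_sq_iff_eq_or_eq_neg.mp h2 with h | h
          · rw [h]; exact h3
          · rw [h]; exact neg_mem h3
      exact fun z hz => h1 hz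
    · intro V q' hq' hV' hnd
      have hN1 : ¬ q' ∣ N := fun h => hnd (Dvd.dvd.mul_right (Dvd.dvd.mul_right h _) _)
      have hN2 : ¬ q' ∣ 2 := fun h => hnd (Dvd.dvd.mul_right (Dvd.dvd.mul_left h _) _)
      have hN3 : ∀ s ∈ S, ¬ q' ∣ K s := fun s hs h =>
        hnd (Dvd.dvd.mul_left (h.trans (Finset.dvd_prod_of_mem K hs)) _)
      have hunit' : ∀ k : ℕ, ¬ q' ∣ k → V.valuation (k : Qb) = 1 := by
        intro k hk
        have := val_coprime V.valuation q' hq' hV' (k : ℤ) (by exact_mod_cast hk)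
        exact_mod_cast this
      apply un_Mf E r V.valuation q' (by exact_mod_cast hunit' 2 hN2) (hE.unr V q' hq' hV' hN1) S hrE
      intro s hs
      obtain ⟨y, hy, hy2⟩ := hK s hs
      have h1 : V.valuation (a s) = 1 := val_eq_one_of_mul V.valuation (a s) y (K s : Qb)
        (haint s hs) hy hy2 (hunit' _ (hN3 s hs))
      have h2 : V.valuation (r s) ^ 2 = 1 := by rw [← map_pow, hr s, h1]
      exact eq_one_of_sq _ h2
  have hθS : θ ∈ S := self_mem_conj θ hθ
  have hsgθ : sg θ x = x := by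
    have := hagree (sg θ) AlgEquiv.refl (by rw [hsg θ hθS]; rfl) x hxE
    exact this
  refine ⟨E', N', r θ, (m : Qb) - θ, ∏ s ∈ S.erase θ, ((m : Qb) - s), (minpoly ℤ θ).eval m,
    le_Mf E r S, hN'0, hgood, r_mem_Mf E r S _ hθS, ?_, ?_, ?_, ?_, ?_, ?_, ?_, ?_, ?_⟩
  · -- integrality
    have : IsIntegral ℤ (r θ ^ 2) := by rw [hr θ]; exact haint θ hθS
    exact IsIntegral.of_pow (by norm_num) this
  · intro h
    apply ha0 θ hθS
    rw [← hr θ, h]
    ring
  · rw [hr θ]
    show p * sg θ x * ((m : Qb) - θ) = _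
    rw [hsgθ]
  · exact (isIntegral_intCast m).sub hθ
  · exact IsIntegral.prod _ fun s hs => (isIntegral_intCast m).sub
      (conj_integral θ hθ s (Finset.mem_of_mem_erase hs))
  · rw [eval_conj θ hθ]
    exact Finset.mul_prod_erase S (fun s => (m : Qb) - s) hθS
  · -- the congruence
    obtain ⟨j, hj⟩ := hmP
    obtain ⟨t, ht, ht2⟩ := prod_one_add P S (fun s => (m : Qb) - s) (by
      intro s hs
      refine ⟨(j : Qb) - sg s θ', (isIntegral_intCast j).sub (hint _ _ hθ'), ?_⟩
      have h1 : s = P * sg s θ' := by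
        conv_lhs => rw [← hsg s hs, hθθ', map_mul, map_natCast]
      have h2 : (m : Qb) = 1 + P * j := by
        have : m = 1 + P * j := by linear_combination hj
        rw [this]; push_cast; ring
      show (m : Qb) - s = _
      rw [h2]
      linear_combination -h1)
    apply int_dvd P hP _ t ht
    push_cast
    rw [eval_conj θ hθ]
    linear_combination ht2
  · exact le_Mf E r S (sub_mem (IntermediateField.intCast_mem E m) hθE)
  · -- the heights
    intro y hyE' hyE
    obtain ⟨T, s₀, hs₀, hTS, hs₀T, hyi, hyT⟩ := exists_layer E r S y hyE' hyE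
    rw [Mf_insert] at hyi
    have hr2 : r s₀ ^ 2 ∈ Mf E r T := le_Mf E r T (hrE s₀ hs₀)
    obtain ⟨α, hα, β, hβ, rfl⟩ := quad_mem _ _ hr2 y hyi
    have hrT : r s₀ ∉ Mf E r T := by
      intro h
      exact hyT (add_mem hα (mul_mem hβ h))
    have hβ0 : β ≠ 0 := by
      rintro rfl
      apply hyT
      rw [zero_mul, add_zero]
      exact hα
    have hr0 : r s₀ ≠ 0 := by
      intro h
      rw [h] at hrT
      exact hrT (zero_mem _)
    obtain ⟨σ, hσ, hσM⟩ := exists_neg (Mf E r T) (r s₀) hr2 hrT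
    have hσy : σ (α + β * r s₀) = α - β * r s₀ := by
      rw [map_add, map_mul, hσ, hσM α hα, hσM β hβ]
      ring
    have hne : α + β * r s₀ ≠ α - β * r s₀ := by
      intro h
      have h1 : 2 * (β * r s₀) = 0 := by linear_combination h
      rcases mul_eq_zero.mp h1 with h2 | h2
      · exact two_ne_zero h2
      · exact mul_ne_zero hβ0 hr0 h2
    have key := height_gain S (fun ρ => (sg s₀).symm.trans (sg ρ)) q hqp.pos
      (α + β * r s₀) (α - β * r s₀) hne (by rw [← hσy]; exact ht_conj σ _) ?_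
    · -- the conclusion
      have hq1 : Real.exp (4 * n * B + n * Real.log 4) ≤ q := by
        have h3 : ⌈Real.exp (4 * n * B + n * Real.log 4)⌉₊ ≤ q := by omega
        exact (Nat.le_ceil _).trans (Nat.cast_le.mpr h3)
      have hq2' : 4 * n * B + n * Real.log 4 ≤ Real.log q := by
        rw [← Real.log_exp (4 * n * B + n * Real.log 4)]
        exact Real.log_le_log (Real.exp_pos _) hq1
      rw [← hn] at key
      have hn' : (0 : ℝ) < n := by exact_mod_cast hn0
      have h3 : 4 * n * B ≤ 4 * n * ht (α + β * r s₀) := by linarith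
      exact le_of_mul_le_mul_left h3 (by linarith)
    · intro V hV
      obtain ⟨ρ, hρ, h1, h2⟩ := hplace V hV
      refine ⟨ρ, hρ, ?_⟩
      set g : Qb ≃ₐ[ℚ] Qb := (sg s₀).symm.trans (sg ρ) with hg
      have hgs₀ : g s₀ = ρ := by
        have h3 : (sg s₀).symm s₀ = θ := by
          rw [AlgEquiv.symm_apply_eq, hsg s₀ hs₀]
        rw [hg, AlgEquiv.trans_apply, h3, hsg ρ hρ]
      set w : Valuation Qb V.ValueGroup := V.valuation.comap (g : Qb →+* Qb) with hw
      have hwg : ∀ z, w z = V.valuation (g z) := fun z => rfl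
      have hwq : w (q : Qb) = V.valuation (q : Qb) := by rw [hwg, map_natCast]
      have hwq1 : w (q : Qb) < 1 := by rw [hwq]; exact hV
      have hwq0 : w (q : Qb) ≠ 0 := by
        rw [Valuation.ne_zero_iff]
        exact_mod_cast hqp.ne_zero
      have hw2 : w (2 : Qb) = 1 := by
        rw [hwg, map_ofNat]
        exact_mod_cast hunit V hV 2 hq2
      have hwp : w (p : Qb) = 1 := by
        rw [hwg, map_natCast]
        exact hunit V hV p hqpp
      have hwx : ∀ s, w (sg s x) = 1 := by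
        intro s
        apply val_eq_one_of_mul w (sg s x) (sg s x₁) (Nx : Qb) (hint _ _ hx) (hint _ _ hx₁)
        · rw [← map_mul, hxx₁, map_natCast]
        · rw [hwg, map_natCast]
          exact hunit V hV Nx hqNx
      have hwa : ∀ s, w (a s) = V.valuation ((m : Qb) - g s) := by
        intro s
        have h3 : w (a s) = w (p : Qb) * w (sg s x) * w ((m : Qb) - s) := by
          rw [← map_mul, ← map_mul]
        rw [h3, hwp, hwx, one_mul, one_mul, hwg, map_sub, map_intCast]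
      have hUnE : Un w q E := by
        intro z hz hz0
        have h3 : g z ≠ 0 := by
          rw [Ne, EmbeddingLike.map_eq_zero_iff]
          exact hz0
        obtain ⟨k, hk⟩ := hE.unr V q hqp hV hqN (g z) (hE.nor g z hz) h3
        exact ⟨k, by rw [hwg, hk, hwq]⟩
      have hUnM : Un w q (Mf E r T) := by
        apply un_Mf E r w q hw2 hUnE T (fun s hs => hrE s (hTS hs))
        intro s hs
        have hne' : g s ≠ ρ := by
          intro h
          rw [← hgs₀] at h
          exact hs₀T (g.injective h ▸ hs)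
        have h3 : w (a s) = 1 := by rw [hwa s, h2 _ (hconjS g s (hTS hs)) hne']
        have h4 : w (r s) ^ 2 = 1 := by rw [← map_pow, hr s, h3]
        exact eq_one_of_sq _ h4
      have hwr : w (r s₀) ^ 2 = w (q : Qb) := by
        rw [← map_pow, hr s₀, hwa s₀, hgs₀, h1, hwq]
      have h5 := local_gain w q (Mf E r T) hUnM hwq1 hwq0 (r s₀) hwr α β hα hβ
      rw [← hwq]
      exact h5

end Pool.Agent.W70.LD
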