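import Mathlib
import Pool.Agent.W70.LD.Stage
import Pool.Agent.H58W.HtNorth

set_option autoImplicit false

/-!
# The tower and the property of Northcott
-/

namespace Pool.Agent.W70.LD

open Module
open Pool.Agent.H58P (Qb ht qb_isIntegral alg_isIntegral)

/-- a stage of the tower -/
structure St where
  E : IntermediateField ℚ Qb
  N : ℕ
  x : Qb
  hN : 0 < N
  good : Good E N
  xE : x ∈ E
  xint : IsIntegral ℤ x
  x0 : x ≠ 0

/-- the integer used at stage `i` -/
def pr (i : ℕ) : ℕ := if i.Prime then i else 1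

lemma pr_pos (i : ℕ) : 0 < pr i := by
  unfold pr
  split_ifs with h
  · exact h.pos
  · exact one_pos

/-- the relation between consecutive stages -/
def Rel (i : ℕ) (s s' : St) : Prop :=
  s.E ≤ s'.E ∧ (∀ y ∈ s'.E, y ∉ s.E → (i : ℝ) ≤ ht y) ∧
    ∃ (u u' : Qb) (c : ℤ), s'.x ^ 2 = pr i * s.x * u ∧ IsIntegral ℤ u ∧ IsIntegral ℤ u' ∧
      u * u' = c ∧ (i.factorial : ℤ) ∣ c - 1 ∧ u ∈ s'.E

lemma exists_rel (i : ℕ) (s : St) : ∃ s' : St, Rel i s s' := by
  obtain ⟨E', N', x', u, u', c, h1, h2, h3, h4, h5, h6, h7, h8, h9, h10, h11, h12, h13⟩ :=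
    stage s.E s.N s.hN s.good s.x s.xE s.xint s.x0 i.factorial (pr i) i.factorial_pos (pr_pos i) i
  exact ⟨⟨E', N', x', h2, h3, h4, h5, h6⟩, h1, h13, u, u', c, h7, h8, h9, h10, h11, h12⟩

lemma good_bot : Good ⊥ 1 := by
  refine ⟨inferInstance, ?_, ?_⟩
  · intro σ z hz
    rw [IntermediateField.mem_bot] at hz ⊢
    obtain ⟨r, rfl⟩ := hz
    exact ⟨r, (σ.commutes r).symm⟩
  · intro V q hq hV _
    exact un_bot V.valuation q hq hV

/-- the first stage -/
noncomputable def st0 : St := ⟨⊥, 1, 1, one_pos, good_bot, one_mem _, isIntegral_one, one_ne_zero⟩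

/-- the tower -/
noncomputable def st : ℕ → St
  | 0 => st0
  | i + 1 => (exists_rel i (st i)).choose

lemma st_rel (i : ℕ) : Rel i (st i) (st (i + 1)) := (exists_rel i (st i)).choose_spec

lemma st_mono : Monotone fun i => (st i).E := monotone_nat_of_le_succ fun i => (st_rel i).1

/-- the union of the tower -/
noncomputable def F₀ : IntermediateField ℚ Qb := ⨆ i, (st i).E

lemma mem_F₀ (y : Qb) : y ∈ F₀ ↔ ∃ i, y ∈ (st i).E := by
  unfold F₀
  have hdir : Directed (· ≤ ·) fun i => (st i).E := st_mono.directed_le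
  rw [← SetLike.mem_coe, IntermediateField.coe_iSup_of_directed hdir]
  simp

lemma F₀_conj (σ : Qb ≃ₐ[ℚ] Qb) (y : Qb) (hy : y ∈ F₀) : σ y ∈ F₀ := by
  rw [mem_F₀] at hy ⊢
  obtain ⟨i, hi⟩ := hy
  exact ⟨i, (st i).good.nor σ y hi⟩

lemma mem_of_ht (k : ℕ) (y : Qb) (hy : y ∈ F₀) (hk : ht y < k) : y ∈ (st k).E := by
  by_contra hcon
  rw [mem_F₀] at hy
  obtain ⟨i, hi⟩ := hy
  have hki : k < i := by
    by_contra h
    exact hcon (st_mono (not_lt.mp h) hi)
  -- the first stage containing `y`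
  have key : ∀ j, y ∉ (st (k + j)).E := by
    intro j
    induction j with
    | zero => exact hcon
    | succ j ih =>
      intro h
      have := (st_rel (k + j)).2.1 y h ih
      have h2 : (k : ℝ) ≤ ((k + j : ℕ) : ℝ) := by exact_mod_cast Nat.le_add_right k j
      linarith
  apply key (i - k)
  have : k + (i - k) = i := by omega
  rw [this]
  exact hi

/-- the property of Northcott -/
theorem northcott_F₀ (B : ℝ) : {y : Qb | y ∈ F₀ ∧ ht y ≤ B}.Finite := by
  obtain ⟨k, hk⟩ := exists_nat_gt B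
  have hfin := (st k).good.fin
  refine (H58W.northcott (finrank ℚ (st k).E) B).subset ?_
  rintro y ⟨hy, hB⟩
  have h1 := mem_of_ht k y hy (lt_of_le_of_lt hB hk)
  refine ⟨?_, hB⟩
  have h2 : minpoly ℚ y = minpoly ℚ (⟨y, h1⟩ : (st k).E) := by
    rw [← minpoly.algebraMap_eq (algebraMap (st k).E Qb).injective]
    rfl
  rw [h2]
  exact minpoly.natDegree_le _

end Pool.Agent.W70.LD
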