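import Mathlib
import Pool.Agent.W70.LD.Tower
import Pool.Agent.W70.LD.Local

set_option autoImplicit false

/-!
# The local degrees of the tower
-/

namespace Pool.Agent.W70.LD

open Module IsDedekindDomain NumberField
open Pool.Agent.H58P (Qb ht qb_isIntegral alg_isIntegral)

lemma exists_prime_mem {R : Type*} [CommRing R] (I : Ideal R) (hI : I.IsPrime) (n : ℕ)
    (hn : n ≠ 0) (h : (n : R) ∈ I) : ∃ p : ℕ, p.Prime ∧ (p : R) ∈ I := by
  induction n using Nat.recOnMul with
  | zero => exact absurd rfl hn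
  | one =>
    exfalso
    apply hI.ne_top
    rw [Ideal.eq_top_iff_one]
    simpa using h
  | prime p hp => exact ⟨p, hp, h⟩
  | mul a b iha ihb =>
    rw [Nat.cast_mul] at h
    rcases hI.mem_or_mem h with h' | h'
    · exact iha (by rintro rfl; simp at hn) h'
    · exact ihb (by rintro rfl; simp at hn) h'

lemma exists_prime_val (K : Type*) [Field K] [NumberField K] (v : HeightOneSpectrum (𝓞 K)) :
    ∃ p : ℕ, p.Prime ∧ Valued.v ((p : ℕ) : v.adicCompletion K) < 1 := by
  have hn : Ideal.absNorm v.asIdeal ≠ 0 := by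
    rw [Ne, Ideal.absNorm_eq_zero_iff]
    exact v.ne_bot
  obtain ⟨p, hp, hpv⟩ := exists_prime_mem v.asIdeal v.isPrime _ hn (Ideal.absNorm_mem v.asIdeal)
  refine ⟨p, hp, ?_⟩
  have h1 := v.valuedAdicCompletion_eq_valuation (K := K) ((p : ℕ) : 𝓞 K)
  have h2 : v.valuation K (algebraMap (𝓞 K) K ((p : ℕ) : 𝓞 K)) < 1 :=
    (v.valuation_lt_one_iff_mem _).mpr hpv
  rw [← h1] at h2
  convert h2 using 2
  simp

theorem local_part (K : IntermediateField ℚ Qb) [NumberField K] (F : IntermediateField K Qb)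
    (hF : ∀ y, y ∈ F₀ → y ∈ F) (v : HeightOneSpectrum (𝓞 K))
    (ι : Qb →ₐ[K] AlgebraicClosure (v.adicCompletion K))
    (hfd : FiniteDimensional (v.adicCompletion K)
      (IntermediateField.adjoin (v.adicCompletion K) (ι '' (F : Set Qb)))) : False := by
  obtain ⟨p, hp, hpv⟩ := exists_prime_val K v
  have hchar : CharZero (v.adicCompletion K) := charZero_of_injective_algebraMap
    (algebraMap K (v.adicCompletion K)).injective
  set A := IntermediateField.adjoin (v.adicCompletion K) (ι '' (F : Set Qb)) with hA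
  have hmem : ∀ y ∈ F₀, ι y ∈ A := fun y hy =>
    IntermediateField.subset_adjoin _ _ ⟨y, hF y hy, rfl⟩
  have hst : ∀ i, ∀ y ∈ (st i).E, y ∈ F₀ := fun i y hy => (mem_F₀ y).mpr ⟨i, hy⟩
  have hrel := fun i => (st_rel i).2.2
  choose u u' c h1 h2 h3 h4 h5 h6 using hrel
  have hu0 : ∀ i, u i ≠ 0 := by
    intro i h
    have := h1 i
    rw [h, mul_zero] at this
    exact (st (i + 1)).x0 (pow_eq_zero_iff two_ne_zero |>.mp this)
  have hu'mem : ∀ i, u' i ∈ (st (i + 1)).E := by
    intro i
    have : u' i = (c i : Qb) / u i := by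
      rw [eq_div_iff (hu0 i), mul_comm]
      exact h4 i
    rw [this]
    exact div_mem (IntermediateField.intCast_mem _ _) (h6 i)
  have hint : ∀ (y : Qb) (hy : y ∈ F₀), IsIntegral ℤ y →
      @IsIntegral ℤ A _ _ (Ring.toIntAlgebra A) ⟨ι y, hmem y hy⟩ := by
    intro y hy hyi
    obtain ⟨f, hf, hf0⟩ := hyi
    refine ⟨f, hf, ?_⟩
    apply (algebraMap A (AlgebraicClosure (v.adicCompletion K))).injective
    rw [Polynomial.hom_eval₂, map_zero]
    have e : (algebraMap A (AlgebraicClosure (v.adicCompletion K))).comp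
        (@algebraMap ℤ A _ _ (Ring.toIntAlgebra A)) =
        (ι : Qb →+* AlgebraicClosure (v.adicCompletion K)).comp (algebraMap ℤ Qb) :=
      RingHom.ext_int _ _
    rw [e]
    show Polynomial.eval₂ _ ((ι : Qb →+* AlgebraicClosure (v.adicCompletion K)) y) f = 0
    rw [← Polynomial.hom_eval₂, hf0, map_zero]
  refine local_infinite (k := v.adicCompletion K) Valued.v p hp
    (by exact_mod_cast hp.ne_zero) hpv (A := A)
    (fun i => ⟨ι (st i).x, hmem _ (hst i _ (st i).xE)⟩)
    (fun i => ⟨ι (u i), hmem _ (hst (i + 1) _ (h6 i))⟩)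
    (fun i => ⟨ι (u' i), hmem _ (hst (i + 1) _ (hu'mem i))⟩)
    c pr (fun i => rfl) ?_ ?_ ?_ ?_ ?_ ?_ h5
  · exact fun i => hint _ (hst i _ (st i).xE) (st i).xint
  · intro i h
    have h7 : ι (st i).x = 0 := congrArg Subtype.val h
    rw [map_eq_zero] at h7
    exact (st i).x0 h7
  · intro i
    apply Subtype.ext
    have h7 := congrArg ι (h1 i)
    simp only [map_pow, map_mul, map_natCast] at h7
    push_cast
    exact h7
  · exact fun i => hint _ (hst (i + 1) _ (h6 i)) (h2 i)
  · exact fun i => hint _ (hst (i + 1) _ (hu'mem i)) (h3 i)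
  · intro i
    apply Subtype.ext
    have h7 := congrArg ι (h4 i)
    simp only [map_mul, map_intCast] at h7
    push_cast
    exact h7

end Pool.Agent.W70.LD
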