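import Mathlib
import Pool.Agent.W70.LD.Tower
import Pool.Agent.W70.LD.Mahler

set_option autoImplicit false

/-!
# Points of small canonical height
-/

namespace Pool.Agent.W70.LD

open Module Polynomial Filter Topology
open Pool.Agent.Helper259.AbsHt
open Pool.Agent.H58P (Qb ht qb_isIntegral alg_isIntegral)
open Pool.Agent.H58W (hM hev lift iterate_lower absLogHeight_pair height_lower)

/-- points of small canonical height have bounded height, whatever their degree -/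
theorem small_bound (P Q : Qb[X]) (d : ℕ) (hd : max P.natDegree Q.natDegree = d)
    (hd2 : 2 ≤ d) (hco : IsCoprime P Q) :
    ∃ M : ℝ, ∀ α : Qb, ∀ L : ℝ, L < 1 →
      Tendsto (fun n : ℕ => hM (((lift P Q d)^[n] (α, 1)).1 / ((lift P Q d)^[n] (α, 1)).2) /
        (d : ℝ) ^ n) atTop (𝓝 L) → ht α ≤ M := by
  obtain ⟨C, hC⟩ := height_lower P Q d hd (by omega) hco
  have hC' : ∀ x y : Qb, d * absLogHeight ![x, y] ≤ max C 0 +
      absLogHeight ![hev P d x y, hev Q d x y] := fun x y =>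
    (hC x y).trans (by linarith [le_max_left C 0])
  refine ⟨max C 0 + 1, fun α L hL hlim => ?_⟩
  have hd2' : (2 : ℝ) ≤ d := by exact_mod_cast hd2
  set γ : ℕ → Qb := fun n => ((lift P Q d)^[n] (α, 1)).1 / ((lift P Q d)^[n] (α, 1)).2 with hγ
  have hev1 : ∀ᶠ n : ℕ in atTop, hM (γ n) / (d : ℝ) ^ n < 1 := hlim.eventually_lt_const hL
  obtain ⟨n, hn1⟩ := hev1.exists
  have hdn : (0 : ℝ) < (d : ℝ) ^ n := by positivity
  rw [div_lt_one hdn] at hn1
  have h3 := iterate_lower P Q d (max C 0) hd2 (le_max_right _ _) hC' (α, 1) n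
  rw [absLogHeight_pair ((lift P Q d)^[n] (α, 1)).1] at h3
  have h4 : absLogHeight ![1, γ n] ≤ hM (γ n) := ht_le_hM (γ n)
  have h6 : (d : ℝ) ^ n * absLogHeight ![α, 1] ≤ (d : ℝ) ^ n * (max C 0 + 1) := by
    have : max C 0 * ((d : ℝ) ^ n - 1) ≤ max C 0 * (d : ℝ) ^ n := by
      have := le_max_right C 0
      nlinarith
    calc (d : ℝ) ^ n * absLogHeight ![α, 1] ≤ max C 0 * ((d : ℝ) ^ n - 1) +
          absLogHeight ![1, γ n] := h3
      _ ≤ max C 0 * (d : ℝ) ^ n + (d : ℝ) ^ n := by linarith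
      _ = _ := by ring
  have h7 := le_of_mul_le_mul_left h6 hdn
  have h8 : absLogHeight ![1, α] = absLogHeight ![α, 1] := by
    have := absLogHeight_pair α 1
    rw [div_one] at this
    exact this.symm
  show absLogHeight ![1, α] ≤ _
  rw [h8]
  exact h7

theorem usb (P Q : Qb[X]) (d : ℕ) (hd : max P.natDegree Q.natDegree = d)
    (hd2 : 2 ≤ d) (hco : IsCoprime P Q) :
    {α : Qb | α ∈ F₀ ∧ ∃ L : ℝ, Tendsto (fun n : ℕ =>
      hM (((lift P Q d)^[n] (α, 1)).1 / ((lift P Q d)^[n] (α, 1)).2) / (d : ℝ) ^ n)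
      atTop (𝓝 L) ∧ L < 1}.Finite := by
  obtain ⟨M, hM'⟩ := small_bound P Q d hd hd2 hco
  refine (northcott_F₀ M).subset ?_
  rintro α ⟨hα, L, hL, hL1⟩
  exact ⟨hα, hM' α L hL1 hL⟩

end Pool.Agent.W70.LD
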